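import Pool.Agent.Helper77.K3.Defs

/-!
# Kleinian affine structures in dimension three: sequential proper discontinuity
-/

set_option autoImplicit false

open Set Filter Topology

namespace Pool.Agent.Helper58.K3.baseA

open Pool.Agent.Helper77.K3

theorem P1 : S_P1 := by
  intro D γ x a b hγ hco hx hb
  by_contra hcon
  rw [not_or] at hcon
  have ha : a ∈ D.Ω := not_not.1 hcon.1
  have hbΩ : b ∈ D.Ω := not_not.1 hcon.2
  obtain ⟨r, hr, hr'⟩ := Metric.nhds_basis_closedBall.mem_iff.1 (D.isOpen.mem_nhds ha)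
  obtain ⟨s, hs, hs'⟩ := Metric.nhds_basis_closedBall.mem_iff.1 (D.isOpen.mem_nhds hbΩ)
  have hfin := D.proper (Metric.closedBall a r ∪ Metric.closedBall b s) (Set.union_subset hr' hs')
    ((isCompact_closedBall a r).union (isCompact_closedBall b s))
  have h1 : ∀ᶠ n in atTop, γ n ∉ {γ : Aff3 | γ ∈ D.Γ ∧
      ((γ '' (Metric.closedBall a r ∪ Metric.closedBall b s)) ∩
        (Metric.closedBall a r ∪ Metric.closedBall b s)).Nonempty} :=
    hco hfin.compl_mem_cofinite
  have h2 : ∀ᶠ n in atTop, x n ∈ Metric.closedBall a r := hx (Metric.closedBall_mem_nhds a hr)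
  have h3 : ∀ᶠ n in atTop, γ n (x n) ∈ Metric.closedBall b s := hb (Metric.closedBall_mem_nhds b hs)
  obtain ⟨n, hn1, hn2, hn3⟩ := (h1.and (h2.and h3)).exists
  exact hn1 ⟨hγ n, γ n (x n), ⟨x n, Or.inl hn2, rfl⟩, Or.inr hn3⟩

lemma tendsto_cofinite_of {α : Type*} {γ : ℕ → α} (φ : α → ℝ) (h : Tendsto (fun n => φ (γ n)) atTop atTop) :
    Tendsto γ atTop cofinite := by
  intro s hs
  have hs' : (φ '' sᶜ).Finite := (mem_cofinite.1 hs).image φ
  obtain ⟨M, hM⟩ := hs'.bddAbove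
  have h1 : ∀ᶠ n in atTop, γ n ∈ s := by
    filter_upwards [h.eventually_gt_atTop M] with n hn
    by_contra hcon
    exact absurd (hM ⟨γ n, hcon, rfl⟩) (not_le.2 hn)
  exact h1

theorem cof : S_cof := by
  refine ⟨fun γ => ?_, fun γ => ?_⟩
  · rintro ⟨i, j, h⟩
    exact tendsto_cofinite_of (fun g => |lin g i j|) h
  · rintro ⟨i, h⟩
    exact tendsto_cofinite_of (fun g => |tr g i|) h

theorem K : S_K := by
  intro D
  refine ⟨D.isOpen.isClosed_compl, fun γ hγ x => ?_⟩
  have h1 : γ x ∈ D.Ω ↔ x ∈ D.Ω := by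
    constructor
    · intro h
      have h2 := D.inv γ⁻¹ (D.Γ.inv_mem hγ) _ h
      have h3 : γ⁻¹ (γ x) = x := by
        show (γ⁻¹ * γ) x = x
        rw [inv_mul_cancel]
        rfl
      rwa [h3] at h2
    · exact D.inv γ hγ x
  exact not_congr h1

end Pool.Agent.Helper58.K3.baseA
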