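import Pool.Agent.Helper77.K3.DefsII

/-!
# Kleinian affine structures in dimension three: triangular groups, proportional case, `a₀ > 0`
-/

set_option autoImplicit false

open Set Filter Topology

namespace Pool.Agent.Helper58.K3.b2ii

open Pool.Agent.Helper77.K3

/-! ## Actions -/

/-- `τ (x, y, z) = (x + α y + β z + b₁, y + ε z + b₂, z + c)` -/
def Un (τ : Aff3) (α β ε b₁ b₂ c : ℝ) : Prop :=
  ∀ x : E, τ x 0 = x 0 + α * x 1 + β * x 2 + b₁ ∧ τ x 1 = x 1 + ε * x 2 + b₂ ∧ τ x 2 = x 2 + c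

/-- `g (x, y, z) = (p x + b z, q y, r z)` -/
def Dg (g : Aff3) (p q r b : ℝ) : Prop :=
  ∀ x : E, g x 0 = p * x 0 + b * x 2 ∧ g x 1 = q * x 1 ∧ g x 2 = r * x 2

lemma inv_apply_self (γ : Aff3) (x : E) : γ⁻¹ (γ x) = x := by
  show (γ⁻¹ * γ) x = x
  rw [inv_mul_cancel]
  rfl

lemma apply_inv_self (γ : Aff3) (x : E) : γ (γ⁻¹ x) = x := by
  show (γ * γ⁻¹) x = x
  rw [mul_inv_cancel]
  rfl

lemma Dg.inv {g : Aff3} {p q r b : ℝ} (h : Dg g p q r b) (hp : p ≠ 0) (hq : q ≠ 0) (hr : r ≠ 0) :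
    Dg g⁻¹ p⁻¹ q⁻¹ r⁻¹ (-b / (p * r)) := by
  intro x
  obtain ⟨h0, h1, h2⟩ := h (g⁻¹ x)
  rw [apply_inv_self] at h0 h1 h2
  have e2 : g⁻¹ x 2 = r⁻¹ * x 2 := by rw [h2]; field_simp
  have e1 : g⁻¹ x 1 = q⁻¹ * x 1 := by rw [h1]; field_simp
  refine ⟨?_, e1, e2⟩
  have e3 : g⁻¹ x 0 = p⁻¹ * (x 0 - b * g⁻¹ x 2) := by rw [h0]; field_simp; ring
  rw [e3, e2]
  field_simp
  ring

lemma Dg.pow {g : Aff3} {p q r b : ℝ} (h : Dg g p q r b) (hp : p ≠ 0) (hb : b = 0 ∨ p = r) (n : ℕ) :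
    Dg (g ^ n) (p ^ n) (q ^ n) (r ^ n) (b * n * p ^ n / p) := by
  induction n with
  | zero =>
    intro x
    rw [pow_zero, pow_zero, pow_zero, pow_zero]
    refine ⟨?_, ?_, ?_⟩
    · show x 0 = _
      simp
    · show x 1 = _
      simp
    · show x 2 = _
      simp
  | succ n ih =>
    intro x
    have e : (g ^ (n + 1)) x = (g ^ n) (g x) := by
      rw [pow_succ]
      rfl
    obtain ⟨h0, h1, h2⟩ := h x
    obtain ⟨k0, k1, k2⟩ := ih (g x)
    rw [e]
    refine ⟨?_, ?_, ?_⟩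
    · rw [k0, h0, h2]
      rcases hb with hb | hb
      · rw [hb]
        push_cast
        ring
      · rw [← hb]
        push_cast
        field_simp
        ring
    · rw [k1, h1]
      ring
    · rw [k2, h2]
      ring

lemma Un.conj {g τ : Aff3} {p q r b α β ε b₁ b₂ c : ℝ} (hg : Dg g p q r b) (h : Un τ α β ε b₁ b₂ c)
    (hp : p ≠ 0) (hq : q ≠ 0) (hr : r ≠ 0) :
    Un (g * τ * g⁻¹) (p / q * α) (p / r * β) (q / r * ε) (p * b₁ + b * c) (q * b₂) (r * c) := by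
  intro x
  have e : (g * τ * g⁻¹) x = g (τ (g⁻¹ x)) := rfl
  obtain ⟨h0, h1, h2⟩ := hg (g⁻¹ x)
  rw [apply_inv_self] at h0 h1 h2
  obtain ⟨k0, k1, k2⟩ := h (g⁻¹ x)
  obtain ⟨m0, m1, m2⟩ := hg (τ (g⁻¹ x))
  rw [e, m0, m1, m2, k0, k1, k2, h0, h1, h2]
  refine ⟨?_, ?_, ?_⟩
  · field_simp
    ring
  · field_simp
  · ring

lemma Un.lin22 (hco : S_coord) {τ : Aff3} {α β ε b₁ b₂ c : ℝ} (h : Un τ α β ε b₁ b₂ c) : lin τ 2 2 = 1 := by
  have h1 := (h (e 2)).2.2
  have h2 := (h 0).2.2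
  have e0 : e 2 0 = 0 := by simp [e]
  have e1 : e 2 1 = 0 := by simp [e]
  have e2 : e 2 2 = 1 := by simp [e]
  rw [hco.1, e0, e1, e2] at h1
  rw [hco.1] at h2
  simp only [Pi.zero_apply] at h2
  linarith

lemma Un.one : Un 1 0 0 0 0 0 0 := by
  intro x
  refine ⟨?_, ?_, ?_⟩
  · show x 0 = _
    ring
  · show x 1 = _
    ring
  · show x 2 = _
    ring

lemma un_of (hco : S_coord) {D : KData} {a₀ : ℝ} (hD : D.Prp a₀) {τ : Aff3} (hτ : τ ∈ D.Γ)
    (h : lin τ 2 2 = 1) : Un τ (lin τ 0 1) (lin τ 0 2) (lin τ 1 2) (tr τ 0) (tr τ 1) (tr τ 2) := by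
  obtain ⟨h10, h20, h21, -, -, -, hdet⟩ := hD.1 τ hτ
  have h00 : lin τ 0 0 = 1 := by
    rw [hD.2 τ hτ, h, Real.one_rpow]
  have h11 : lin τ 1 1 = 1 := by
    rw [h00, h] at hdet
    linarith
  intro x
  refine ⟨?_, ?_, ?_⟩
  · rw [hco.1, h00]
    ring
  · rw [hco.1, h10, h11]
    ring
  · rw [hco.1, h20, h21, h]
    ring

lemma ext_apply (γ δ : Aff3) (h : ∀ x i, γ x i = δ x i) : γ = δ := by
  apply AffineEquiv.ext
  intro x
  funext i
  exact h x i

/-! ## No convergence to the identity at a point of `Ω` -/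

lemma no_conv (hP1 : S_P1) {D : KData} {γ : ℕ → Aff3} (hγ : ∀ n, γ n ∈ D.Γ) (hinj : Function.Injective γ)
    {x : E} (hx : x ∈ D.Ω) (h : Tendsto (fun n => γ n x) atTop (𝓝 x)) : False := by
  have hcof : Tendsto γ atTop cofinite := by
    rw [← Nat.cofinite_eq_atTop]
    exact hinj.tendsto_cofinite
  rcases hP1 D γ (fun _ => x) x x hγ hcof tendsto_const_nhds h with h | h
  · exact h hx
  · exact h hx

/-! ## The invariant foliation by `y`-lines -/

/-- the adapted coordinate -/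
noncomputable def uu (β : ℝ) (x : E) : ℝ := x 0 - β * x 2 ^ 2 / 2

/-- the translations of `(u, z)` -/
noncomputable def TT (D : KData) (β : ℝ) : AddSubgroup (Fin 2 → ℝ) where
  carrier := {t | ∃ τ ∈ D.Γ, ∀ x : E, uu β (τ x) = uu β x + t 0 ∧ (τ x) 2 = x 2 + t 1}
  zero_mem' := ⟨1, D.Γ.one_mem, fun x => ⟨by show uu β x = _; simp, by show x 2 = _; simp⟩⟩
  add_mem' := by
    rintro s t ⟨σ, hσ, hs⟩ ⟨τ, hτ, ht⟩
    refine ⟨σ * τ, D.Γ.mul_mem hσ hτ, fun x => ?_⟩
    obtain ⟨h1, h2⟩ := hs (τ x)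
    obtain ⟨h3, h4⟩ := ht x
    refine ⟨?_, ?_⟩
    · show uu β (σ (τ x)) = _
      rw [h1, h3, Pi.add_apply]
      ring
    · show (σ (τ x)) 2 = _
      rw [h2, h4, Pi.add_apply]
      ring
  neg_mem' := by
    rintro t ⟨τ, hτ, ht⟩
    refine ⟨τ⁻¹, D.Γ.inv_mem hτ, fun x => ?_⟩
    obtain ⟨h3, h4⟩ := ht (τ⁻¹ x)
    rw [apply_inv_self] at h3 h4
    rw [Pi.neg_apply, Pi.neg_apply]
    constructor
    · linarith
    · linarith

/-- the `y`-lines in `K` -/
def SS (D : KData) (β : ℝ) : Set (Fin 2 → ℝ) := {v | ∀ x : E, uu β x = v 0 → x 2 = v 1 → x ∈ D.K}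

lemma isClosed_SS (hK : S_K) (D : KData) (β : ℝ) : IsClosed (SS D β) := by
  have : SS D β = ⋂ y : ℝ, (fun v : Fin 2 → ℝ => (![v 0 + β * v 1 ^ 2 / 2, y, v 1] : E)) ⁻¹' D.K := by
    ext v
    simp only [mem_iInter, mem_preimage]
    constructor
    · intro h y
      refine h _ ?_ rfl
      show v 0 + β * v 1 ^ 2 / 2 - β * v 1 ^ 2 / 2 = v 0
      ring
    · intro h x h0 h1
      have h2 := h (x 1)
      have h3 : (![v 0 + β * v 1 ^ 2 / 2, x 1, v 1] : E) = x := by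
        funext i
        fin_cases i
        · show v 0 + β * v 1 ^ 2 / 2 = x 0
          rw [← h0, ← h1, uu]
          ring
        · rfl
        · exact h1.symm
      rwa [h3] at h2
  rw [this]
  refine isClosed_iInter fun y => (hK D).1.preimage ?_
  refine continuous_pi fun i => ?_
  fin_cases i
  · show Continuous fun v : Fin 2 → ℝ => v 0 + β * v 1 ^ 2 / 2
    fun_prop
  · exact continuous_const
  · show Continuous fun v : Fin 2 → ℝ => v 1
    fun_prop

lemma TT_sub (hK : S_K) {D : KData} {β : ℝ} (h0 : (0 : Fin 2 → ℝ) ∈ SS D β) :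
    closure (TT D β : Set (Fin 2 → ℝ)) ⊆ SS D β := by
  refine closure_minimal ?_ (isClosed_SS hK D β)
  rintro t ⟨τ, hτ, ht⟩ x hx0 hx1
  obtain ⟨h3, h4⟩ := ht (τ⁻¹ x)
  rw [apply_inv_self] at h3 h4
  have h5 : τ⁻¹ x ∈ D.K := by
    refine h0 _ ?_ ?_
    · show uu β (τ⁻¹ x) = 0
      linarith
    · show (τ⁻¹ x) 2 = 0
      linarith
  have h6 := ((hK D).2 τ hτ (τ⁻¹ x)).2 h5
  rwa [apply_inv_self] at h6

/-! ## The normalised element -/

structure Setup (D : KData) (g : Aff3) (p q r b : ℝ) : Prop where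
  hg : g ∈ D.Γ
  dg : Dg g p q r b
  hp : 1 < p
  hq0 : 0 < q
  hq : q < 1
  hr : 1 < r
  hb : b = 0 ∨ p = r
  det : p * q * r = 1

section
variable {D : KData} {g : Aff3} {p q r b : ℝ}

lemma Setup.p0 (h : Setup D g p q r b) : 0 < p := by linarith [h.hp]
lemma Setup.r0 (h : Setup D g p q r b) : 0 < r := by linarith [h.hr]

lemma Setup.pw (h : Setup D g p q r b) (n : ℕ) :
    Dg (g ^ n) (p ^ n) (q ^ n) (r ^ n) (b * n * p ^ n / p) := h.dg.pow h.p0.ne' h.hb n

lemma Setup.pwi (h : Setup D g p q r b) (n : ℕ) :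
    Dg (g ^ n)⁻¹ (p ^ n)⁻¹ (q ^ n)⁻¹ (r ^ n)⁻¹ (-(b * n * p ^ n / p) / (p ^ n * r ^ n)) :=
  (h.pw n).inv (pow_pos h.p0 n).ne' (pow_pos h.hq0 n).ne' (pow_pos h.r0 n).ne'

lemma Setup.limp (h : Setup D g p q r b) : Tendsto (fun n : ℕ => (p ^ n)⁻¹) atTop (𝓝 0) := by
  have := tendsto_pow_atTop_nhds_zero_of_lt_one (inv_pos.2 h.p0).le (inv_lt_one_of_one_lt₀ h.hp)
  simpa [inv_pow] using this

lemma Setup.limr (h : Setup D g p q r b) : Tendsto (fun n : ℕ => (r ^ n)⁻¹) atTop (𝓝 0) := by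
  have := tendsto_pow_atTop_nhds_zero_of_lt_one (inv_pos.2 h.r0).le (inv_lt_one_of_one_lt₀ h.hr)
  simpa [inv_pow] using this

lemma Setup.limq (h : Setup D g p q r b) : Tendsto (fun n : ℕ => q ^ n) atTop (𝓝 0) :=
  tendsto_pow_atTop_nhds_zero_of_lt_one h.hq0.le h.hq

lemma Setup.limb (h : Setup D g p q r b) :
    Tendsto (fun n : ℕ => -(b * n * p ^ n / p) / (p ^ n * r ^ n)) atTop (𝓝 0) := by
  have h1 := (tendsto_self_mul_const_pow_of_lt_one (inv_pos.2 h.r0).le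
    (inv_lt_one_of_one_lt₀ h.hr)).const_mul (-(b / p))
  rw [mul_zero] at h1
  refine h1.congr fun n => ?_
  have h2 := (pow_pos h.p0 n).ne'
  have h3 := (pow_pos h.r0 n).ne'
  have h4 := h.p0.ne'
  rw [inv_pow]
  field_simp

lemma Setup.pow_inj (h : Setup D g p q r b) : Function.Injective fun n : ℕ => g ^ n := by
  intro m n hmn
  have h1 : (g ^ m) (e 2) 2 = (g ^ n) (e 2) 2 := by
    have hmn' : g ^ m = g ^ n := hmn
    rw [hmn']
  rw [(h.pw m (e 2)).2.2, (h.pw n (e 2)).2.2] at h1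
  have h2 : e 2 2 = 1 := by simp [e]
  rw [h2, mul_one, mul_one] at h1
  exact pow_right_injective₀ h.r0 h.hr.ne' h1

lemma Setup.stable (hP1 : S_P1) (hF2 : S_F2) (h : Setup D g p q r b) (x : E) (h0 : x 0 = 0) (h2 : x 2 = 0) :
    x ∈ D.K := by
  obtain ⟨z, hz, hz1⟩ := hF2 D (![0, 1, 0]) 0 (by
    intro h3
    have := congrFun h3 1
    simp at this)
  have hz1' : z 1 = 0 := by simpa using hz1
  have hcof : Tendsto (fun n : ℕ => g ^ n) atTop cofinite := by
    rw [← Nat.cofinite_eq_atTop]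
    exact h.pow_inj.tendsto_cofinite
  have hlim1 : Tendsto (fun n : ℕ => (![(p ^ n)⁻¹ * z 0 + (-(b * n * p ^ n / p) / (p ^ n * r ^ n)) * z 2, x 1,
      (r ^ n)⁻¹ * z 2] : E)) atTop (𝓝 x) := by
    rw [tendsto_pi_nhds]
    intro i
    fin_cases i
    · show Tendsto (fun n : ℕ => (p ^ n)⁻¹ * z 0 + (-(b * n * p ^ n / p) / (p ^ n * r ^ n)) * z 2) atTop (𝓝 (x 0))
      rw [h0]
      have := (h.limp.mul_const (z 0)).add (h.limb.mul_const (z 2))
      simpa using this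
    · exact tendsto_const_nhds
    · show Tendsto (fun n : ℕ => (r ^ n)⁻¹ * z 2) atTop (𝓝 (x 2))
      rw [h2]
      have := h.limr.mul_const (z 2)
      simpa using this
  have hlim2 : Tendsto (fun n : ℕ => (g ^ n) (![(p ^ n)⁻¹ * z 0 +
      (-(b * n * p ^ n / p) / (p ^ n * r ^ n)) * z 2, x 1, (r ^ n)⁻¹ * z 2] : E)) atTop (𝓝 z) := by
    rw [tendsto_pi_nhds]
    intro i
    have h5 : ∀ n : ℕ, p ^ n ≠ 0 := fun n => (pow_pos h.p0 n).ne'
    have h6 : ∀ n : ℕ, r ^ n ≠ 0 := fun n => (pow_pos h.r0 n).ne'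
    have h7 := h.p0.ne'
    fin_cases i
    · refine Tendsto.congr (fun n => ?_) tendsto_const_nhds
      show z 0 = _
      refine Eq.trans ?_ (h.pw n _).1.symm
      show z 0 = p ^ n * ((p ^ n)⁻¹ * z 0 + (-(b * n * p ^ n / p) / (p ^ n * r ^ n)) * z 2) +
        b * n * p ^ n / p * ((r ^ n)⁻¹ * z 2)
      have := h5 n
      have := h6 n
      field_simp
      ring
    · have h8 := h.limq.mul_const (x 1)
      rw [zero_mul] at h8
      show Tendsto _ atTop (𝓝 (z 1))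
      rw [hz1']
      refine h8.congr fun n => ?_
      refine Eq.trans ?_ (h.pw n _).2.1.symm
      rfl
    · refine Tendsto.congr (fun n => ?_) tendsto_const_nhds
      show z 2 = _
      refine Eq.trans ?_ (h.pw n _).2.2.symm
      show z 2 = r ^ n * ((r ^ n)⁻¹ * z 2)
      have := h6 n
      field_simp
  rcases hP1 D (fun n => g ^ n) _ x z (fun n => D.Γ.pow_mem h.hg n) hcof hlim1 hlim2 with h8 | h8
  · exact h8
  · exact (h8 hz).elim

lemma Setup.zero_SS (hP1 : S_P1) (hF2 : S_F2) (h : Setup D g p q r b) (β : ℝ) : (0 : Fin 2 → ℝ) ∈ SS D β := by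
  intro x h0 h2
  have h2' : x 2 = 0 := h2
  have h0' : x 0 - β * x 2 ^ 2 / 2 = 0 := h0
  rw [h2'] at h0'
  exact h.stable hP1 hF2 x (by linarith) h2'

/-- small elements of a subgroup -/
lemma small_of {T : AddSubgroup (Fin 2 → ℝ)} {t : ℕ → Fin 2 → ℝ} (h1 : ∀ n, t n ∈ T) (h2 : ∀ n, t n ≠ 0)
    (h3 : Tendsto (fun n => t n 0) atTop (𝓝 0)) (h4 : Tendsto (fun n => t n 1) atTop (𝓝 0)) :
    ∀ ε > 0, ∃ s ∈ T, s ≠ 0 ∧ ‖s‖ < ε := by
  intro ε hε
  have h5 : Tendsto t atTop (𝓝 0) := by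
    rw [tendsto_pi_nhds]
    intro i
    fin_cases i
    · exact h3
    · exact h4
  have h6 := h5.norm
  rw [norm_zero] at h6
  obtain ⟨n, hn⟩ := (h6.eventually_lt_const hε).exists
  exact ⟨t n, h1 n, h2 n, hn⟩

/-- elements which act on `(x, z)` by translations are trivial there -/
lemma Setup.transl (hP1 : S_P1) (hF2 : S_F2) (hK : S_K) (hnd : S_nondisc) (h : Setup D g p q r b) {τ : Aff3}
    (hτ : τ ∈ D.Γ) {ε b₁ b₂ c : ℝ} (hu : Un τ 0 0 ε b₁ b₂ c) : b₁ = 0 ∧ c = 0 := by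
  by_contra hcon
  -- the conjugates
  let s : ℕ → Fin 2 → ℝ := fun n =>
    ![(p ^ n)⁻¹ * b₁ + (-(b * n * p ^ n / p) / (p ^ n * r ^ n)) * c, (r ^ n)⁻¹ * c]
  have hs1 : ∀ n, s n ∈ TT D 0 := by
    intro n
    refine ⟨(g ^ n)⁻¹ * τ * ((g ^ n)⁻¹)⁻¹, D.Γ.mul_mem (D.Γ.mul_mem (D.Γ.inv_mem (D.Γ.pow_mem h.hg n)) hτ)
      (D.Γ.inv_mem (D.Γ.inv_mem (D.Γ.pow_mem h.hg n))), fun x => ?_⟩
    have h1 := Un.conj (h.pwi n) hu (inv_ne_zero (pow_pos h.p0 n).ne') (inv_ne_zero (pow_pos h.hq0 n).ne')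
      (inv_ne_zero (pow_pos h.r0 n).ne') x
    refine ⟨?_, h1.2.2⟩
    show ((g ^ n)⁻¹ * τ * ((g ^ n)⁻¹)⁻¹) x 0 - 0 * _ / 2 = (x 0 - 0 * x 2 ^ 2 / 2) + _
    rw [h1.1]
    show _ = _ + ((p ^ n)⁻¹ * b₁ + (-(b * n * p ^ n / p) / (p ^ n * r ^ n)) * c)
    ring
  have hs2 : ∀ n, s n ≠ 0 := by
    intro n h0
    have h1 : (r ^ n)⁻¹ * c = 0 := congrFun h0 1
    have h2 : (p ^ n)⁻¹ * b₁ + (-(b * n * p ^ n / p) / (p ^ n * r ^ n)) * c = 0 := congrFun h0 0
    have h3 : c = 0 := by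
      rcases mul_eq_zero.1 h1 with h3 | h3
      · exact absurd h3 (inv_ne_zero (pow_pos h.r0 n).ne')
      · exact h3
    rw [h3, mul_zero, add_zero] at h2
    have h4 : b₁ = 0 := by
      rcases mul_eq_zero.1 h2 with h4 | h4
      · exact absurd h4 (inv_ne_zero (pow_pos h.p0 n).ne')
      · exact h4
    exact hcon ⟨h4, h3⟩
  obtain ⟨w, hw, hwT⟩ := hnd (TT D 0) (small_of hs1 hs2 (by
      show Tendsto (fun n : ℕ => (p ^ n)⁻¹ * b₁ + (-(b * n * p ^ n / p) / (p ^ n * r ^ n)) * c) atTop (𝓝 0)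
      have := (h.limp.mul_const b₁).add (h.limb.mul_const c)
      simpa using this) (by
      show Tendsto (fun n : ℕ => (r ^ n)⁻¹ * c) atTop (𝓝 0)
      have := h.limr.mul_const c
      simpa using this))
  -- the plane
  obtain ⟨z, hz, hz1⟩ := hF2 D (![w 1, 0, -w 0]) 0 (by
    intro h3
    apply hw
    funext i
    fin_cases i
    · have := congrFun h3 2
      simpa using this
    · have := congrFun h3 0
      simpa using this)
  have hz2 : w 1 * z 0 = w 0 * z 2 := by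
    simp only [Matrix.cons_val_zero, Matrix.cons_val_one, Matrix.cons_val] at hz1
    linarith
  have hr : ∃ ρ : ℝ, z 0 = ρ * w 0 ∧ z 2 = ρ * w 1 := by
    by_cases h0 : w 0 = 0
    · have h1 : w 1 ≠ 0 := by
        intro h1
        apply hw
        funext i
        fin_cases i
        · exact h0
        · exact h1
      refine ⟨z 2 / w 1, ?_, by field_simp⟩
      rw [h0, zero_mul] at hz2
      rw [h0, mul_zero]
      exact (mul_eq_zero.1 hz2).resolve_left h1
    · refine ⟨z 0 / w 0, by field_simp, ?_⟩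
      field_simp
      linarith
  obtain ⟨ρ, hρ0, hρ2⟩ := hr
  have h5 := TT_sub hK (h.zero_SS hP1 hF2 0) (hwT ρ)
  have h6 : z ∈ D.K := by
    refine h5 z ?_ ?_
    · show z 0 - 0 * z 2 ^ 2 / 2 = (ρ • w) 0
      rw [hρ0]
      show _ = ρ * w 0
      ring
    · show z 2 = (ρ • w) 1
      rw [hρ2]
      rfl
  exact h6 hz

/-- no `y`-translations -/
lemma Setup.ytransl (hP1 : S_P1) (h : Setup D g p q r b) {τ : Aff3}
    (hτ : τ ∈ D.Γ) {b₂ : ℝ} (hu : Un τ 0 0 0 0 b₂ 0) : b₂ = 0 := by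
  by_contra hb2
  obtain ⟨x, hx⟩ := D.conn.nonempty
  have hc : ∀ n : ℕ, Un (g ^ n * τ * (g ^ n)⁻¹) 0 0 0 0 (q ^ n * b₂) 0 := by
    intro n
    have h1 := Un.conj (h.pw n) hu (pow_pos h.p0 n).ne' (pow_pos h.hq0 n).ne' (pow_pos h.r0 n).ne'
    simpa using h1
  refine no_conv hP1 (D := D) (γ := fun n => g ^ n * τ * (g ^ n)⁻¹) (fun n => D.Γ.mul_mem
    (D.Γ.mul_mem (D.Γ.pow_mem h.hg n) hτ) (D.Γ.inv_mem (D.Γ.pow_mem h.hg n))) ?_ hx ?_
  · intro m n hmn
    have hmn' : g ^ m * τ * (g ^ m)⁻¹ = g ^ n * τ * (g ^ n)⁻¹ := hmn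
    have h1 := (hc m 0).2.1
    rw [hmn', (hc n 0).2.1] at h1
    have h2 : q ^ m = q ^ n := by
      have h3 : (q ^ m - q ^ n) * b₂ = 0 := by linarith
      rcases mul_eq_zero.1 h3 with h4 | h4
      · linarith
      · exact absurd h4 hb2
    exact pow_right_injective₀ h.hq0 h.hq.ne h2
  · rw [tendsto_pi_nhds]
    intro i
    fin_cases i
    · refine Tendsto.congr (fun n => ?_) tendsto_const_nhds
      refine Eq.trans ?_ (hc n x).1.symm
      show x 0 = x 0 + 0 * x 1 + 0 * x 2 + 0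
      ring
    · have h1 := (tendsto_const_nhds (x := x 1)).add (h.limq.mul_const b₂)
      rw [zero_mul, add_zero] at h1
      show Tendsto _ atTop (𝓝 (x 1))
      refine h1.congr fun n => ?_
      refine Eq.trans ?_ (hc n x).2.1.symm
      ring
    · refine Tendsto.congr (fun n => ?_) tendsto_const_nhds
      refine Eq.trans ?_ (hc n x).2.2.symm
      show x 2 = x 2 + 0
      ring

/-- unipotent elements commute -/
lemma Setup.comm (hco : S_coord) (hP1 : S_P1) (hF2 : S_F2) (hK : S_K) (hnd : S_nondisc) (hcomm : S_comm)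
    (h : Setup D g p q r b) {a₀ : ℝ} (hD : D.Prp a₀) (ha : a₀ ≠ 0) (hg2 : lin g 2 2 ≠ 1) {σ τ : Aff3}
    (hσ : σ ∈ D.Γ) (hτ : τ ∈ D.Γ) {α β ε b₁ b₂ c α' β' ε' b₁' b₂' c' : ℝ} (hu : Un σ α β ε b₁ b₂ c)
    (hu' : Un τ α' β' ε' b₁' b₂' c') : ε * c' = ε' * c ∧ α * b₂' + β * c' = α' * b₂ + β' * c := by
  obtain ⟨hm, ht⟩ := hcomm D a₀ hD ha ⟨g, h.hg, hg2⟩ σ hσ τ hτ (hu.lin22 hco) (hu'.lin22 hco)
  set κ := σ * τ * σ⁻¹ * τ⁻¹ with hκ
  have hκΓ : κ ∈ D.Γ := D.Γ.mul_mem (D.Γ.mul_mem (D.Γ.mul_mem hσ hτ) (D.Γ.inv_mem hσ)) (D.Γ.inv_mem hτ)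
  have hl : ∀ i j, lin κ i j = (1 : M3) i j := fun i j => by
    rw [← hm]
    rfl
  have l00 : lin κ 0 0 = 1 := by rw [hl]; simp
  have l01 : lin κ 0 1 = 0 := by rw [hl]; simp
  have l02 : lin κ 0 2 = 0 := by rw [hl]; simp
  have l10 : lin κ 1 0 = 0 := by rw [hl]; simp
  have l11 : lin κ 1 1 = 1 := by rw [hl]; simp
  have l12 : lin κ 1 2 = 0 := by rw [hl]; simp
  have l20 : lin κ 2 0 = 0 := by rw [hl]; simp
  have l21 : lin κ 2 1 = 0 := by rw [hl]; simp
  have l22 : lin κ 2 2 = 1 := by rw [hl]; simp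
  have hκu : Un κ 0 0 0 (tr κ 0) (tr κ 1) 0 := by
    intro x
    refine ⟨?_, ?_, ?_⟩
    · rw [hco.1, l00, l01, l02]
      ring
    · rw [hco.1, l10, l11, l12]
      ring
    · rw [hco.1, l20, l21, l22, ht]
      ring
  have hk0 := (h.transl hP1 hF2 hK hnd hκΓ hκu).1
  rw [hk0] at hκu
  have hk1 := h.ytransl hP1 hκΓ hκu
  rw [hk1] at hκu
  have hκ1 : κ = 1 := by
    refine ext_apply _ _ fun x i => ?_
    show κ x i = x i
    obtain ⟨k0, k1, k2⟩ := hκu x
    fin_cases i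
    · show κ x 0 = x 0
      rw [k0]; ring
    · show κ x 1 = x 1
      rw [k1]; ring
    · show κ x 2 = x 2
      rw [k2]; ring
  have hst : σ * τ = τ * σ := by
    have h1 : κ * (τ * σ) = σ * τ := by
      rw [hκ]
      group
    rw [← h1, hκ1, one_mul]
  have h2 : σ (τ 0) = τ (σ 0) := by
    show (σ * τ) 0 = (τ * σ) 0
    rw [hst]
  obtain ⟨s0, s1, s2⟩ := hu 0
  obtain ⟨t0, t1, t2⟩ := hu' 0
  obtain ⟨u0, u1, u2⟩ := hu (τ 0)
  obtain ⟨w0, w1, w2⟩ := hu' (σ 0)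
  rw [← h2] at w0 w1 w2
  rw [u0, t0, t1, t2, s0, s1, s2] at w0
  rw [u1, t1, t2, s1, s2] at w1
  simp only [Pi.zero_apply] at w0 w1
  constructor
  · linarith
  · linarith

end

/-! ## The contradiction -/

section core
variable {D : KData} {g : Aff3} {p q r b : ℝ}

/-- `K` contains no plane `z = 0`, in terms of `TT` -/
lemma noaxis (hF2 : S_F2) (hK : S_K) {β : ℝ} (h0 : (0 : Fin 2 → ℝ) ∈ SS D β) {w : Fin 2 → ℝ} (hw : w ≠ 0)
    (hw1 : w 1 = 0) (h : ∀ ρ : ℝ, ρ • w ∈ closure (TT D β : Set (Fin 2 → ℝ))) : False := by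
  have hw0 : w 0 ≠ 0 := by
    intro h1
    apply hw
    funext i
    fin_cases i
    · exact h1
    · exact hw1
  obtain ⟨z, hz, hz1⟩ := hF2 D (![0, 0, 1]) 0 (by
    intro h3
    have := congrFun h3 2
    simp at this)
  have hz2 : z 2 = 0 := by simpa using hz1
  have h5 := TT_sub hK h0 (h (z 0 / w 0))
  refine h5 z ?_ ?_ hz
  · show z 0 - β * z 2 ^ 2 / 2 = z 0 / w 0 * w 0
    rw [hz2]
    field_simp
    ring
  · show z 2 = z 0 / w 0 * w 1
    rw [hz2, hw1, mul_zero]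

theorem core (hco : S_coord) (hP1 : S_P1) (hF1 : S_F1) (hF2 : S_F2) (hK : S_K) (hdens : S_densN)
    (hcomm : S_comm) (hnd : S_nondisc) (h : Setup D g p q r b) {a₀ : ℝ} (hD : D.Prp a₀) (ha : a₀ ≠ 0)
    (hg2 : lin g 2 2 = r) : False := by
  have hg2' : lin g 2 2 ≠ 1 := by rw [hg2]; exact h.hr.ne'
  have hp0 := h.p0
  have hr0 := h.r0
  have hq0 := h.hq0
  have hrel := @Setup.comm D g p q r b hco hP1 hF2 hK hnd hcomm h a₀ hD ha hg2'
  -- an element with nonzero `z`-translation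
  obtain ⟨τ, hτ, hτd, hτ1, -⟩ := hdens D hD.1 ⟨g, h.hg, hg2'⟩ 1 2 (by norm_num)
  have hτu := un_of hco hD hτ (hτd 2)
  have hc0 : tr τ 2 ≠ 0 := by linarith
  -- conjugation by `g`
  have hcj : ∀ {σ : Aff3} {α β ε b₁ b₂ c : ℝ}, σ ∈ D.Γ → Un σ α β ε b₁ b₂ c → g * σ * g⁻¹ ∈ D.Γ ∧
      Un (g * σ * g⁻¹) (p / q * α) (p / r * β) (q / r * ε) (p * b₁ + b * c) (q * b₂) (r * c) :=
    fun hσ hu => ⟨D.Γ.mul_mem (D.Γ.mul_mem h.hg hσ) (D.Γ.inv_mem h.hg), hu.conj h.dg hp0.ne' hq0.ne' hr0.ne'⟩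
  -- `ε = 0`
  have hε : ∀ {σ : Aff3} {α β ε b₁ b₂ c : ℝ}, σ ∈ D.Γ → Un σ α β ε b₁ b₂ c → ε = 0 := by
    intro σ α β ε b₁ b₂ c hσ hu
    have h1 := (hrel hσ hτ hu hτu).1
    obtain ⟨hτ', hτu'⟩ := hcj hτ hτu
    have h2 := (hrel hσ hτ' hu hτu').1
    have h3 : ε * tr τ 2 * (r * r - q) = 0 := by
      have h4 : ε * (r * tr τ 2) * r = q * (lin τ 1 2 * c) := by
        rw [h2]
        field_simp
      rw [← h1] at h4
      linear_combination h4
    have h4 : r * r - q ≠ 0 := by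
      have : 1 < r * r := by nlinarith [h.hr]
      linarith [h.hq]
    exact ((mul_eq_zero.1 ((mul_eq_zero.1 h3).resolve_right h4)).resolve_right hc0)
  -- `α b₂' = 0`
  have hrq : r * q = 1 / p := by
    rw [eq_div_iff hp0.ne']
    linear_combination h.det
  have hP : ∀ {σ τ : Aff3} {α β ε b₁ b₂ c α' β' ε' b₁' b₂' c' : ℝ}, σ ∈ D.Γ → τ ∈ D.Γ →
      Un σ α β ε b₁ b₂ c → Un τ α' β' ε' b₁' b₂' c' → α * b₂' = 0 := by
    intro σ τ α β ε b₁ b₂ c α' β' ε' b₁' b₂' c' hσ hτ hu hu'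
    have h1 : ∀ n : ℕ, α * b₂' = -(β * c') * (q / r) ^ n + α' * b₂ * (q * q / p) ^ n +
        β' * c * (r * q / p) ^ n := by
      intro n
      have h5 := (pow_pos hp0 n).ne'
      have h6 := (pow_pos hq0 n).ne'
      have h7 := (pow_pos hr0 n).ne'
      have h2 := hu'.conj (h.pwi n) (inv_ne_zero h5) (inv_ne_zero h6) (inv_ne_zero h7)
      have h3 := (hrel hσ (D.Γ.mul_mem (D.Γ.mul_mem (D.Γ.inv_mem (D.Γ.pow_mem h.hg n)) hτ)
        (D.Γ.inv_mem (D.Γ.inv_mem (D.Γ.pow_mem h.hg n)))) hu h2).2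
      have h4 : q ^ n * (α * ((q ^ n)⁻¹ * b₂') + β * ((r ^ n)⁻¹ * c')) =
          q ^ n * ((p ^ n)⁻¹ / (q ^ n)⁻¹ * α' * b₂ + (p ^ n)⁻¹ / (r ^ n)⁻¹ * β' * c) := by rw [h3]
      rw [div_pow, div_pow, div_pow, mul_pow, mul_pow]
      have e1 : q ^ n * (α * ((q ^ n)⁻¹ * b₂') + β * ((r ^ n)⁻¹ * c')) = α * b₂' + β * c' * (q ^ n / r ^ n) := by
        field_simp
      have e2 : q ^ n * ((p ^ n)⁻¹ / (q ^ n)⁻¹ * α' * b₂ + (p ^ n)⁻¹ / (r ^ n)⁻¹ * β' * c) =
          α' * b₂ * (q ^ n * q ^ n / p ^ n) + β' * c * (r ^ n * q ^ n / p ^ n) := by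
        field_simp
      rw [e1, e2] at h4
      linear_combination h4
    have t1 : Tendsto (fun n : ℕ => (q / r) ^ n) atTop (𝓝 0) :=
      tendsto_pow_atTop_nhds_zero_of_lt_one (by positivity) ((div_lt_one hr0).2 (by linarith [h.hq, h.hr]))
    have t2 : Tendsto (fun n : ℕ => (q * q / p) ^ n) atTop (𝓝 0) := by
      refine tendsto_pow_atTop_nhds_zero_of_lt_one (by positivity) ((div_lt_one hp0).2 ?_)
      nlinarith [h.hq, h.hp, hq0]
    have t3 : Tendsto (fun n : ℕ => (r * q / p) ^ n) atTop (𝓝 0) := by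
      refine tendsto_pow_atTop_nhds_zero_of_lt_one (by positivity) ((div_lt_one hp0).2 ?_)
      rw [hrq, div_lt_iff₀ hp0]
      nlinarith [h.hp]
    have t4 := ((t1.const_mul (-(β * c'))).add (t2.const_mul (α' * b₂))).add (t3.const_mul (β' * c))
    rw [mul_zero, mul_zero, mul_zero, add_zero, add_zero] at t4
    exact tendsto_nhds_unique (tendsto_const_nhds.congr h1) t4
  -- `β c' = β' c`
  have hQ : ∀ {σ τ : Aff3} {α β ε b₁ b₂ c α' β' ε' b₁' b₂' c' : ℝ}, σ ∈ D.Γ → τ ∈ D.Γ →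
      Un σ α β ε b₁ b₂ c → Un τ α' β' ε' b₁' b₂' c' → β * c' = β' * c := by
    intro σ τ α β ε b₁ b₂ c α' β' ε' b₁' b₂' c' hσ hτ hu hu'
    have h1 := (hrel hσ hτ hu hu').2
    have h2 := hP hσ hτ hu hu'
    have h3 := hP hτ hσ hu' hu
    linarith
  -- `β = 0` if `r² ≠ p`
  have hβ : r * r ≠ p → ∀ {σ : Aff3} {α β ε b₁ b₂ c : ℝ}, σ ∈ D.Γ → Un σ α β ε b₁ b₂ c → β = 0 := by
    intro hne σ α β ε b₁ b₂ c hσ hu
    have h1 := hQ hσ hτ hu hτu
    obtain ⟨hτ', hτu'⟩ := hcj hτ hτu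
    have h2 := hQ hσ hτ' hu hτu'
    have h3 : β * tr τ 2 * (r * r - p) = 0 := by
      have h4 : β * (r * tr τ 2) * r = p * (lin τ 0 2 * c) := by
        rw [h2]
        field_simp
      rw [← h1] at h4
      linear_combination h4
    exact ((mul_eq_zero.1 ((mul_eq_zero.1 h3).resolve_right (sub_ne_zero.2 hne))).resolve_right hc0)
  have hτε : lin τ 1 2 = 0 := hε hτ hτu
  rw [hτε] at hτu
  by_cases hA : tr τ 1 = 0
  · -- the plane `y = 0`
    rw [hA] at hτu
    obtain ⟨x, hx, hx1⟩ := hF2 D (![0, 1, 0]) 0 (by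
      intro h3
      have := congrFun h3 1
      simp at this)
    have hx1' : x 1 = 0 := by simpa using hx1
    have hcn : ∀ n : ℕ, Un ((g ^ n)⁻¹ * τ * ((g ^ n)⁻¹)⁻¹) _ _ _ _ _ _ := fun n =>
      hτu.conj (h.pwi n) (inv_ne_zero (pow_pos hp0 n).ne') (inv_ne_zero (pow_pos hq0 n).ne')
        (inv_ne_zero (pow_pos hr0 n).ne')
    refine no_conv hP1 (D := D) (γ := fun n => (g ^ n)⁻¹ * τ * ((g ^ n)⁻¹)⁻¹) (fun n => D.Γ.mul_mem
      (D.Γ.mul_mem (D.Γ.inv_mem (D.Γ.pow_mem h.hg n)) hτ) (D.Γ.inv_mem (D.Γ.inv_mem (D.Γ.pow_mem h.hg n)))) ?_ hx ?_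
    · intro m n hmn
      have hmn' : (g ^ m)⁻¹ * τ * ((g ^ m)⁻¹)⁻¹ = (g ^ n)⁻¹ * τ * ((g ^ n)⁻¹)⁻¹ := hmn
      have h1 := (hcn m 0).2.2
      rw [hmn', (hcn n 0).2.2] at h1
      have h2 : (r ^ n)⁻¹ = (r ^ m)⁻¹ := by
        have h3 : ((r ^ n)⁻¹ - (r ^ m)⁻¹) * tr τ 2 = 0 := by linarith
        rcases mul_eq_zero.1 h3 with h4 | h4
        · linarith
        · exact absurd h4 hc0
      exact (pow_right_injective₀ hr0 h.hr.ne' (inv_injective h2)).symm
    · rw [tendsto_pi_nhds]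
      intro i
      fin_cases i
      · -- the coefficient of `z`
        have h3 : Tendsto (fun n : ℕ => (p ^ n)⁻¹ / (r ^ n)⁻¹ * lin τ 0 2) atTop (𝓝 0) := by
          by_cases hpr : r * r = p
          · have h4 := h.limr.mul_const (lin τ 0 2)
            rw [zero_mul] at h4
            refine h4.congr fun n => ?_
            have h5 := (pow_pos hr0 n).ne'
            rw [← hpr, mul_pow]
            field_simp
          · rw [hβ hpr hτ hτu]
            simp
        have h4 := ((tendsto_const_nhds (x := x 0)).add (h3.mul_const (x 2))).add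
          ((h.limp.mul_const (tr τ 0)).add (h.limb.mul_const (tr τ 2)))
        simp only [zero_mul, add_zero] at h4
        show Tendsto _ atTop (𝓝 (x 0))
        refine h4.congr fun n => ?_
        refine Eq.trans ?_ (hcn n x).1.symm
        rw [hx1']
        ring
      · refine Tendsto.congr (fun n => ?_) tendsto_const_nhds
        refine Eq.trans ?_ (hcn n x).2.1.symm
        show x 1 = _
        ring
      · have h1 := (tendsto_const_nhds (x := x 2)).add (h.limr.mul_const (tr τ 2))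
        rw [zero_mul, add_zero] at h1
        show Tendsto _ atTop (𝓝 (x 2))
        refine h1.congr fun n => ?_
        exact (hcn n x).2.2.symm
  · -- `α = 0`
    have hα : ∀ {σ : Aff3} {α β ε b₁ b₂ c : ℝ}, σ ∈ D.Γ → Un σ α β ε b₁ b₂ c → α = 0 := by
      intro σ α β ε b₁ b₂ c hσ hu
      exact (mul_eq_zero.1 (hP hσ hτ hu hτu)).resolve_right hA
    have hτα := hα hτ hτu
    rw [hτα] at hτu
    by_cases hpr : r * r = p
    · have hpr' : p ≠ r := by
        rw [← hpr]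
        nlinarith [h.hr]
      have hb0 : b = 0 := h.hb.resolve_right hpr'
      set β₀ : ℝ := lin τ 0 2 / tr τ 2 with hβ₀
      have hβc : ∀ {σ : Aff3} {α β ε b₁ b₂ c : ℝ}, σ ∈ D.Γ → Un σ α β ε b₁ b₂ c → β = β₀ * c := by
        intro σ α β ε b₁ b₂ c hσ hu
        have h1 := hQ hσ hτ hu hτu
        rw [hβ₀]
        field_simp
        linarith
      -- the translation of `u`
      have hmem : ∀ {σ : Aff3} {α β ε b₁ b₂ c : ℝ}, σ ∈ D.Γ → Un σ α β ε b₁ b₂ c →
          (![b₁ - β₀ * c ^ 2 / 2, c] : Fin 2 → ℝ) ∈ TT D β₀ ∧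
          ∀ x : E, uu β₀ (σ x) = uu β₀ x + (b₁ - β₀ * c ^ 2 / 2) := by
        intro σ α β ε b₁ b₂ c hσ hu
        have h1 : ∀ x : E, uu β₀ (σ x) = uu β₀ x + (b₁ - β₀ * c ^ 2 / 2) := by
          intro x
          obtain ⟨k0, -, k2⟩ := hu x
          rw [uu, uu, k0, k2, hα hσ hu, hβc hσ hu]
          ring
        exact ⟨⟨σ, hσ, fun x => ⟨h1 x, (hu x).2.2⟩⟩, h1⟩
      have hgu : ∀ x : E, uu β₀ (g x) = p * uu β₀ x := by
        intro x
        obtain ⟨k0, -, k2⟩ := h.dg x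
        rw [uu, uu, k0, k2, hb0, ← hpr]
        ring
      have hgu' : ∀ x : E, uu β₀ (g⁻¹ x) = p⁻¹ * uu β₀ x := by
        intro x
        have h1 := hgu (g⁻¹ x)
        rw [apply_inv_self] at h1
        rw [h1]
        field_simp
      have hgz' : ∀ x : E, (g⁻¹ x) 2 = r⁻¹ * x 2 := by
        intro x
        have h1 := (h.dg (g⁻¹ x)).2.2
        rw [apply_inv_self] at h1
        rw [h1]
        field_simp
      -- the closed group
      set Tc : AddSubgroup (Fin 2 → ℝ) := (TT D β₀).topologicalClosure with hTc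
      have hTcc : (Tc : Set (Fin 2 → ℝ)) = closure (TT D β₀ : Set (Fin 2 → ℝ)) :=
        AddSubgroup.topologicalClosure_coe
      have hTcl : IsClosed (Tc : Set (Fin 2 → ℝ)) := by
        rw [hTcc]
        exact isClosed_closure
      have hTm : ∀ t ∈ TT D β₀, t ∈ Tc := fun t ht => by
        have : t ∈ (Tc : Set (Fin 2 → ℝ)) := by
          rw [hTcc]
          exact subset_closure ht
        exact this
      have hδ1 : ∀ t ∈ TT D β₀, (![p⁻¹ * t 0, r⁻¹ * t 1] : Fin 2 → ℝ) ∈ TT D β₀ := by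
        rintro t ⟨σ, hσ, ht⟩
        refine ⟨g⁻¹ * σ * g, D.Γ.mul_mem (D.Γ.mul_mem (D.Γ.inv_mem h.hg) hσ) h.hg, fun x => ?_⟩
        obtain ⟨k0, k2⟩ := ht (g x)
        constructor
        · show uu β₀ (g⁻¹ (σ (g x))) = uu β₀ x + p⁻¹ * t 0
          rw [hgu', k0, hgu]
          field_simp
        · show (g⁻¹ (σ (g x))) 2 = x 2 + r⁻¹ * t 1
          rw [hgz', k2, (h.dg x).2.2]
          field_simp
      have hδ : ∀ t ∈ Tc, (![p⁻¹ * t 0, r⁻¹ * t 1] : Fin 2 → ℝ) ∈ Tc := by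
        intro t ht
        have h1 : t ∈ closure (TT D β₀ : Set (Fin 2 → ℝ)) := by
          rw [← hTcc]
          exact ht
        have hcont : Continuous fun t : Fin 2 → ℝ => (![p⁻¹ * t 0, r⁻¹ * t 1] : Fin 2 → ℝ) := by
          refine continuous_pi fun i => ?_
          fin_cases i
          · show Continuous fun t : Fin 2 → ℝ => p⁻¹ * t 0
            fun_prop
          · show Continuous fun t : Fin 2 → ℝ => r⁻¹ * t 1
            fun_prop
        have h2 := map_mem_closure hcont h1 (t := (TT D β₀ : Set (Fin 2 → ℝ))) (fun t ht => hδ1 t ht)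
        rw [← hTcc] at h2
        exact h2
      have hδn : ∀ (n : ℕ), ∀ t ∈ Tc, (![(p ^ n)⁻¹ * t 0, (r ^ n)⁻¹ * t 1] : Fin 2 → ℝ) ∈ Tc := by
        intro n
        induction n with
        | zero =>
          intro t ht
          have : (![(p ^ 0)⁻¹ * t 0, (r ^ 0)⁻¹ * t 1] : Fin 2 → ℝ) = t := by
            funext i
            fin_cases i
            · show (p ^ 0)⁻¹ * t 0 = t 0
              simp
            · show (r ^ 0)⁻¹ * t 1 = t 1
              simp
          rw [this]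
          exact ht
        | succ n ih =>
          intro t ht
          have h1 := ih _ (hδ t ht)
          have : (![(p ^ (n + 1))⁻¹ * t 0, (r ^ (n + 1))⁻¹ * t 1] : Fin 2 → ℝ) =
              ![(p ^ n)⁻¹ * (![p⁻¹ * t 0, r⁻¹ * t 1] : Fin 2 → ℝ) 0,
                (r ^ n)⁻¹ * (![p⁻¹ * t 0, r⁻¹ * t 1] : Fin 2 → ℝ) 1] := by
            funext i
            fin_cases i
            · show (p ^ (n + 1))⁻¹ * t 0 = (p ^ n)⁻¹ * (p⁻¹ * t 0)
              rw [pow_succ, mul_inv]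
              ring
            · show (r ^ (n + 1))⁻¹ * t 1 = (r ^ n)⁻¹ * (r⁻¹ * t 1)
              rw [pow_succ, mul_inv]
              ring
          rw [this]
          exact h1
      have h0S := h.zero_SS hP1 hF2 β₀
      have hnoax : ∀ w : Fin 2 → ℝ, w ≠ 0 → w 1 = 0 → ¬ ∀ ρ : ℝ, ρ • w ∈ Tc := by
        intro w hw hw1 hall
        refine noaxis hF2 hK h0S hw hw1 fun ρ => ?_
        rw [← hTcc]
        exact hall ρ
      -- a line in the closure
      have hτm := hTm _ (hmem hτ hτu).1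
      obtain ⟨w, hw, hwT⟩ := hnd Tc (small_of (t := fun n => ![(p ^ n)⁻¹ * (tr τ 0 - β₀ * tr τ 2 ^ 2 / 2),
        (r ^ n)⁻¹ * tr τ 2]) (fun n => hδn n _ hτm) (fun n h1 => by
          have h2 : (r ^ n)⁻¹ * tr τ 2 = 0 := congrFun h1 1
          exact (mul_ne_zero (inv_ne_zero (pow_pos hr0 n).ne') hc0) h2)
        (by
          show Tendsto (fun n : ℕ => (p ^ n)⁻¹ * (tr τ 0 - β₀ * tr τ 2 ^ 2 / 2)) atTop (𝓝 0)
          have := h.limp.mul_const (tr τ 0 - β₀ * tr τ 2 ^ 2 / 2)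
          rwa [zero_mul] at this)
        (by
          show Tendsto (fun n : ℕ => (r ^ n)⁻¹ * tr τ 2) atTop (𝓝 0)
          have := h.limr.mul_const (tr τ 2)
          rwa [zero_mul] at this))
      have hwT' : ∀ ρ : ℝ, ρ • w ∈ Tc := fun ρ => by
        have := hwT ρ
        rwa [hTcl.closure_eq] at this
      have hw1 : w 1 ≠ 0 := fun h1 => hnoax w hw h1 hwT'
      -- the `z`-axis
      have haxis : ∀ s : ℝ, (![0, s] : Fin 2 → ℝ) ∈ Tc := by
        intro s
        have h1 : ∀ n : ℕ, (![(r ^ n)⁻¹ * (s / w 1 * w 0), s] : Fin 2 → ℝ) ∈ Tc := by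
          intro n
          have h2 := hδn n _ (hwT' (r ^ n * s / w 1))
          have : (![(r ^ n)⁻¹ * (s / w 1 * w 0), s] : Fin 2 → ℝ) =
              ![(p ^ n)⁻¹ * ((r ^ n * s / w 1) • w) 0, (r ^ n)⁻¹ * ((r ^ n * s / w 1) • w) 1] := by
            have h5 := (pow_pos hr0 n).ne'
            funext i
            fin_cases i
            · show (r ^ n)⁻¹ * (s / w 1 * w 0) = (p ^ n)⁻¹ * (r ^ n * s / w 1 * w 0)
              rw [← hpr, mul_pow]
              field_simp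
            · show s = (r ^ n)⁻¹ * (r ^ n * s / w 1 * w 1)
              field_simp
          rw [this]
          exact h2
        refine hTcl.mem_of_tendsto (f := fun n : ℕ => (![(r ^ n)⁻¹ * (s / w 1 * w 0), s] : Fin 2 → ℝ))
          (b := atTop) ?_ (Eventually.of_forall h1)
        rw [tendsto_pi_nhds]
        intro i
        fin_cases i
        · show Tendsto (fun n : ℕ => (r ^ n)⁻¹ * (s / w 1 * w 0)) atTop (𝓝 0)
          have := h.limr.mul_const (s / w 1 * w 0)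
          rwa [zero_mul] at this
        · exact tendsto_const_nhds
      -- no `u`-translations
      have hk : ∀ {σ : Aff3} {α β ε b₁ b₂ c : ℝ}, σ ∈ D.Γ → Un σ α β ε b₁ b₂ c →
          b₁ - β₀ * c ^ 2 / 2 = 0 := by
        intro σ α β ε b₁ b₂ c hσ hu
        by_contra hk0
        set k := b₁ - β₀ * c ^ 2 / 2 with hkdef
        have h1 : (![k, 0] : Fin 2 → ℝ) ∈ Tc := by
          have h2 := Tc.sub_mem (hTm _ (hmem hσ hu).1) (haxis c)
          have : (![k, 0] : Fin 2 → ℝ) = ![k, c] - ![0, c] := by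
            funext i
            fin_cases i
            · show k = k - 0
              ring
            · show (0 : ℝ) = c - c
              ring
          rw [this]
          exact h2
        let T3 : AddSubgroup (Fin 2 → ℝ) := Tc ⊓
          { carrier := {t | t 1 = 0}
            zero_mem' := rfl
            add_mem' := fun {a b} ha hb => by
              show a 1 + b 1 = 0
              rw [show a 1 = 0 from ha, show b 1 = 0 from hb, add_zero]
            neg_mem' := fun {a} ha => by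
              show -a 1 = 0
              rw [show a 1 = 0 from ha, neg_zero] }
        have hT3 : ∀ t, t ∈ T3 ↔ t ∈ Tc ∧ t 1 = 0 := fun t => Iff.rfl
        have hT3c : IsClosed (T3 : Set (Fin 2 → ℝ)) := by
          have : (T3 : Set (Fin 2 → ℝ)) = (Tc : Set (Fin 2 → ℝ)) ∩ {t | t 1 = 0} := rfl
          rw [this]
          exact hTcl.inter (isClosed_eq (continuous_apply 1) continuous_const)
        obtain ⟨v, hv, hvT⟩ := hnd T3 (small_of (t := fun n => ![(p ^ n)⁻¹ * k, 0])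
          (fun n => by
            rw [hT3]
            refine ⟨?_, rfl⟩
            have h2 := hδn n _ h1
            have : (![(p ^ n)⁻¹ * k, 0] : Fin 2 → ℝ) =
                ![(p ^ n)⁻¹ * (![k, 0] : Fin 2 → ℝ) 0, (r ^ n)⁻¹ * (![k, 0] : Fin 2 → ℝ) 1] := by
              funext i
              fin_cases i
              · rfl
              · show (0 : ℝ) = (r ^ n)⁻¹ * 0
                ring
            rw [this]
            exact h2)
          (fun n h2 => by
            have h3 : (p ^ n)⁻¹ * k = 0 := congrFun h2 0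
            exact (mul_ne_zero (inv_ne_zero (pow_pos hp0 n).ne') hk0) h3)
          (by
            show Tendsto (fun n : ℕ => (p ^ n)⁻¹ * k) atTop (𝓝 0)
            have := h.limp.mul_const k
            rwa [zero_mul] at this)
          (by
            show Tendsto (fun n : ℕ => (0 : ℝ)) atTop (𝓝 0)
            exact tendsto_const_nhds))
        have hvT' : ∀ ρ : ℝ, ρ • v ∈ T3 := fun ρ => by
          have := hvT ρ
          rwa [hT3c.closure_eq] at this
        have hv1 : v 1 = 0 := by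
          have := ((hT3 _).1 (hvT' 1)).2
          rwa [one_smul] at this
        exact hnoax v hv hv1 fun ρ => ((hT3 _).1 (hvT' ρ)).1
      -- the action of `Γ` on `u`
      have ha2 : a₀ = 2 := by
        have h1 := hD.2 g h.hg
        have h2 : lin g 0 0 = p := by
          have h3 := (h.dg (e 0)).1
          have h4 := (h.dg 0).1
          have e0 : e 0 0 = 1 := by simp [e]
          have e1 : e 0 1 = 0 := by simp [e]
          have e2 : e 0 2 = 0 := by simp [e]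
          rw [hco.1, e0, e1, e2] at h3
          rw [hco.1] at h4
          simp only [Pi.zero_apply] at h4
          linarith
        rw [h2, hg2, ← hpr] at h1
        have h3 : r ^ a₀ = r ^ (2 : ℝ) := by
          rw [← h1, Real.rpow_two]
          ring
        have h4 := congrArg Real.log h3
        rw [Real.log_rpow hr0, Real.log_rpow hr0] at h4
        exact mul_right_cancel₀ (Real.log_pos h.hr).ne' h4
      have hinv : ∀ η ∈ D.Γ, ∀ x : E, uu β₀ (η x) = lin η 0 0 * uu β₀ x := by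
        intro η hη x
        obtain ⟨m10, m20, m21, m00, m11, m22, mdet⟩ := hD.1 η hη
        have hsq : lin η 0 0 = lin η 2 2 ^ 2 := by
          rw [hD.2 η hη, ha2, Real.rpow_two]
        -- the commutator
        set n := η * g * η⁻¹ * g⁻¹ with hn
        have hnΓ : n ∈ D.Γ := D.Γ.mul_mem (D.Γ.mul_mem (D.Γ.mul_mem hη h.hg) (D.Γ.inv_mem hη)) (D.Γ.inv_mem h.hg)
        have hmg : ∀ {a b : Aff3}, a ∈ D.Γ → b ∈ D.Γ → lin (a * b) 2 2 = lin a 2 2 * lin b 2 2 := by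
          intro a b ha hb
          rw [hco.2.1, (hD.1 a ha).2.1, (hD.1 a ha).2.2.1]
          ring
        have hmi : ∀ {a : Aff3}, a ∈ D.Γ → lin a⁻¹ 2 2 = (lin a 2 2)⁻¹ := by
          intro a ha
          have h1 := hmg ha (D.Γ.inv_mem ha)
          rw [mul_inv_cancel] at h1
          have h2 : lin (1 : Aff3) 2 2 = 1 := Un.lin22 hco Un.one
          rw [h2] at h1
          exact eq_inv_of_mul_eq_one_right h1.symm
        have hn22 : lin n 2 2 = 1 := by
          rw [hn, hmg (D.Γ.mul_mem (D.Γ.mul_mem hη h.hg) (D.Γ.inv_mem hη)) (D.Γ.inv_mem h.hg),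
            hmg (D.Γ.mul_mem hη h.hg) (D.Γ.inv_mem hη), hmg hη h.hg, hmi hη, hmi h.hg, hg2]
          field_simp
        have hnu := un_of hco hD hnΓ hn22
        have hnk := hk hnΓ hnu
        have hcomp : ∀ y : E, uu β₀ (η (g y)) = p * uu β₀ (η y) := by
          intro y
          have h1 : η (g y) = n (g (η y)) := by
            have h2 : η * g = n * (g * η) := by
              rw [hn]
              group
            show (η * g) y = (n * (g * η)) y
            rw [h2]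
          rw [h1, (hmem hnΓ hnu).2, hnk, add_zero, hgu]
        -- evaluate
        have hexp : ∀ y : E, uu β₀ (η y) = (lin η 0 0 * y 0 + lin η 0 1 * y 1 + lin η 0 2 * y 2 + tr η 0) -
            β₀ * (lin η 2 2 * y 2 + tr η 2) ^ 2 / 2 := by
          intro y
          rw [uu, hco.1, hco.1 η y 2, m20, m21]
          ring
        have c0 := hcomp 0
        have c1 := hcomp (e 1)
        have c2 := hcomp (e 2)
        have c3 := hcomp (-e 2)
        rw [hexp, hexp, (h.dg _).1, (h.dg _).2.1, (h.dg _).2.2] at c0 c1 c2 c3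
        have e10 : e 1 0 = 0 := by simp [e]
        have e11 : e 1 1 = 1 := by simp [e]
        have e12 : e 1 2 = 0 := by simp [e]
        have e20 : e 2 0 = 0 := by simp [e]
        have e21 : e 2 1 = 0 := by simp [e]
        have e22 : e 2 2 = 1 := by simp [e]
        simp only [Pi.zero_apply, Pi.neg_apply, e10, e11, e12, e20, e21, e22, hb0] at c0 c1 c2 c3
        -- constants
        have hp1 : p - 1 ≠ 0 := by linarith [h.hp]
        have f0 : tr η 0 - β₀ * tr η 2 ^ 2 / 2 = 0 := by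
          have : (p - 1) * (tr η 0 - β₀ * tr η 2 ^ 2 / 2) = 0 := by linear_combination -c0
          exact (mul_eq_zero.1 this).resolve_left hp1
        have f1 : lin η 0 1 = 0 := by
          have h5 : (q - p) * lin η 0 1 = 0 := by linear_combination c1 - c0
          exact (mul_eq_zero.1 h5).resolve_left (by linarith [h.hp, h.hq])
        have f2 : lin η 0 2 - β₀ * lin η 2 2 * tr η 2 = 0 := by
          have h5 : (r - p) * (lin η 0 2 - β₀ * lin η 2 2 * tr η 2) = 0 := by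
            linear_combination (1 / 2) * c2 - (1 / 2) * c3
          exact (mul_eq_zero.1 h5).resolve_left (sub_ne_zero.2 (Ne.symm hpr'))
        rw [hexp, uu, f1]
        linear_combination x 2 * f2 + f0 + (β₀ * x 2 ^ 2 / 2) * hsq
      -- the invariant convex set
      rcases le_total 0 β₀ with hs | hs
      · have hC := hF1 D {x : E | 0 ≤ uu β₀ x} ?_ ⟨0, by show 0 ≤ uu β₀ 0; simp [uu]⟩ ?_
        · have h1 : (![-1, 0, 0] : E) ∈ ({x : E | 0 ≤ uu β₀ x} : Set E) := by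
            rw [hC]
            trivial
          have h2 : (0 : ℝ) ≤ -1 - β₀ * 0 ^ 2 / 2 := h1
          linarith
        · intro x hx y hy s t hs0 ht0 hst
          have hx' : β₀ * x 2 ^ 2 / 2 ≤ x 0 := sub_nonneg.1 hx
          have hy' : β₀ * y 2 ^ 2 / 2 ≤ y 0 := sub_nonneg.1 hy
          show 0 ≤ (s * x 0 + t * y 0) - β₀ * (s * x 2 + t * y 2) ^ 2 / 2
          have h1 : (s * x 2 + t * y 2) ^ 2 ≤ s * x 2 ^ 2 + t * y 2 ^ 2 := by
            have h3 : s * x 2 ^ 2 + t * y 2 ^ 2 - (s * x 2 + t * y 2) ^ 2 = s * t * (x 2 - y 2) ^ 2 := by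
              have h4 : t = 1 - s := by linarith
              rw [h4]
              ring
            have h5 : 0 ≤ s * t * (x 2 - y 2) ^ 2 := by positivity
            linarith
          have h2 := mul_le_mul_of_nonneg_left h1 hs
          nlinarith [mul_le_mul_of_nonneg_left hx' hs0, mul_le_mul_of_nonneg_left hy' ht0]
        · intro η hη x hx
          show 0 ≤ uu β₀ (η x)
          rw [hinv η hη]
          exact mul_nonneg (hD.1 η hη).2.2.2.1.le hx
      · have hC := hF1 D {x : E | uu β₀ x ≤ 0} ?_ ⟨0, by show uu β₀ 0 ≤ 0; simp [uu]⟩ ?_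
        · have h1 : (![1, 0, 0] : E) ∈ ({x : E | uu β₀ x ≤ 0} : Set E) := by
            rw [hC]
            trivial
          have h2 : (1 : ℝ) - β₀ * 0 ^ 2 / 2 ≤ 0 := h1
          linarith
        · intro x hx y hy s t hs0 ht0 hst
          have hx' : x 0 ≤ β₀ * x 2 ^ 2 / 2 := sub_nonpos.1 hx
          have hy' : y 0 ≤ β₀ * y 2 ^ 2 / 2 := sub_nonpos.1 hy
          show (s * x 0 + t * y 0) - β₀ * (s * x 2 + t * y 2) ^ 2 / 2 ≤ 0
          have h1 : (s * x 2 + t * y 2) ^ 2 ≤ s * x 2 ^ 2 + t * y 2 ^ 2 := by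
            have h3 : s * x 2 ^ 2 + t * y 2 ^ 2 - (s * x 2 + t * y 2) ^ 2 = s * t * (x 2 - y 2) ^ 2 := by
              have h4 : t = 1 - s := by linarith
              rw [h4]
              ring
            have h5 : 0 ≤ s * t * (x 2 - y 2) ^ 2 := by positivity
            linarith
          have h2 := mul_le_mul_of_nonneg_left h1 (neg_nonneg.2 hs)
          nlinarith [mul_le_mul_of_nonneg_left hx' hs0, mul_le_mul_of_nonneg_left hy' ht0]
        · intro η hη x hx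
          show uu β₀ (η x) ≤ 0
          rw [hinv η hη]
          exact mul_nonpos_of_nonneg_of_nonpos (hD.1 η hη).2.2.2.1.le hx
    · -- translations
      have hτβ := hβ hpr hτ hτu
      rw [hτβ] at hτu
      exact hc0 (h.transl hP1 hF2 hK hnd hτ hτu).2

end core

theorem b2ii (hco : S_coord) (hP1 : S_P1) (hF1 : S_F1) (hF2 : S_F2) (hK : S_K) (hnorm : S_norm)
    (hdens : S_densN) (hcomm : S_comm) (hnd : S_nondisc) : S_b2ii := by
  intro D a₀ hD ha hg
  exfalso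
  -- an expanding element
  have hmg : ∀ {a b : Aff3}, a ∈ D.Γ → b ∈ D.Γ → lin (a * b) 2 2 = lin a 2 2 * lin b 2 2 := by
    intro a b ha hb
    rw [hco.2.1, (hD.1 a ha).2.1, (hD.1 a ha).2.2.1]
    ring
  obtain ⟨g, hg, hg1⟩ : ∃ g ∈ D.Γ, 1 < lin g 2 2 := by
    obtain ⟨g, hg, hg1⟩ := hg
    rcases lt_or_gt_of_ne hg1 with h1 | h1
    · refine ⟨g⁻¹, D.Γ.inv_mem hg, ?_⟩
      have h2 := hmg hg (D.Γ.inv_mem hg)
      rw [mul_inv_cancel, Un.lin22 hco Un.one] at h2
      have h3 : 0 < lin g 2 2 := (hD.1 g hg).2.2.2.2.2.1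
      have h4 : lin g⁻¹ 2 2 = (lin g 2 2)⁻¹ := eq_inv_of_mul_eq_one_right h2.symm
      rw [h4]
      exact (one_lt_inv₀ h3).2 h1
    · exact ⟨g, hg, h1⟩
  obtain ⟨φ, D', hT', -, -, hΓ', -, hconj, n01, n12, n02, ntr⟩ := hnorm D g hD.1 hg
  obtain ⟨h10, h20, h21, p00, p11, p22, pdet⟩ := hD.1 g hg
  obtain ⟨hg', hdiag⟩ := hconj g hg
  set g' := φ * g * φ⁻¹ with hg'def
  obtain ⟨k10, k20, k21, -, -, -, -⟩ := hT' g' hg'
  have hD' : D'.Prp a₀ := by
    refine ⟨hT', fun γ hγ => ?_⟩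
    have h1 := (hΓ' γ).1 hγ
    obtain ⟨h2, h3⟩ := hconj _ h1
    have h4 : φ * (φ⁻¹ * γ * φ) * φ⁻¹ = γ := by group
    rw [h4] at h3
    rw [h3 0, h3 2]
    exact hD.2 _ h1
  have hp : 1 < lin g 0 0 := by
    rw [hD.2 g hg]
    exact Real.one_lt_rpow hg1 ha
  have hq : lin g 1 1 < 1 := by
    by_contra hcon
    rw [not_lt] at hcon
    have h1 : 1 < lin g 0 0 * lin g 1 1 := by nlinarith
    have h2 : 1 < lin g 0 0 * lin g 1 1 * lin g 2 2 := by nlinarith
    linarith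
  have t0 := ntr 0 hp.ne'
  have t1 := ntr 1 hq.ne
  have t2 := ntr 2 hg1.ne'
  have l01 := n01 (by linarith)
  have l12 := n12 (by linarith)
  have hset : Setup D' g' (lin g 0 0) (lin g 1 1) (lin g 2 2) (lin g' 0 2) := by
    refine ⟨hg', ?_, hp, p11, hq, hg1, ?_, pdet⟩
    · intro x
      refine ⟨?_, ?_, ?_⟩
      · rw [hco.1, l01, t0, hdiag 0]
        ring
      · rw [hco.1, k10, l12, t1, hdiag 1]
        ring
      · rw [hco.1, k20, k21, t2, hdiag 2]
        ring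
    · by_cases h1 : lin g 0 0 = lin g 2 2
      · exact Or.inr h1
      · exact Or.inl (n02 h1)
  exact core hco hP1 hF1 hF2 hK hdens hcomm hnd hset hD' ha.ne' (hdiag 2)

end Pool.Agent.Helper58.K3.b2ii
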