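import Pool.Agent.Helper77.K3.DefsI

/-!
# Kleinian affine structures in dimension three: the inequality NC (Section 2)
-/

set_option autoImplicit false

open Set Filter Topology Matrix

namespace Pool.Agent.Helper58.K3.nc

open Pool.Agent.Helper77.K3

/-- a closed multiplicative monoid in `ℝ` which contains `p`, `p⁻¹` and a sequence which converges to
a nonzero limit and is not eventually constant contains all positive numbers -/
lemma all_pos {T : Set ℝ} (hc : IsClosed T) (h1 : (1 : ℝ) ∈ T) (hm : ∀ a ∈ T, ∀ b ∈ T, a * b ∈ T)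
    {p : ℝ} (hp0 : 0 < p) (hp1 : p < 1) (hpT : p ∈ T) (hpT' : p⁻¹ ∈ T) {r : ℕ → ℝ} {ℓ : ℝ}
    (hr : ∀ᶠ n in atTop, r n ∈ T) (hℓ : ℓ ≠ 0) (hlim : Tendsto r atTop (𝓝 ℓ))
    (hne : ¬ ∀ᶠ n in atTop, r n = ℓ) : ∀ t : ℝ, 0 < t → t ∈ T := by
  -- the logarithmic image
  set L : Set ℝ := {y | Real.exp y ∈ T} with hL
  have hLc : IsClosed L := hc.preimage Real.continuous_exp
  have hL0 : (0 : ℝ) ∈ L := by show Real.exp 0 ∈ T; rwa [Real.exp_zero]
  have hLa : ∀ x ∈ L, ∀ y ∈ L, x + y ∈ L := by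
    intro x hx y hy
    show Real.exp (x + y) ∈ T
    rw [Real.exp_add]
    exact hm _ hx _ hy
  set P : ℝ := -Real.log p with hP
  have hP0 : 0 < P := by
    have := Real.log_neg hp0 hp1
    linarith
  have hPL : P ∈ L := by
    show Real.exp (-Real.log p) ∈ T
    rwa [Real.exp_neg, Real.exp_log hp0]
  have hPL' : -P ∈ L := by
    show Real.exp (- -Real.log p) ∈ T
    rwa [neg_neg, Real.exp_log hp0]
  have hLn : ∀ x ∈ L, ∀ n : ℕ, (n : ℝ) * x ∈ L := by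
    intro x hx n
    induction n with
    | zero => simpa using hL0
    | succ n ih =>
      have : ((n + 1 : ℕ) : ℝ) * x = (n : ℝ) * x + x := by push_cast; ring
      rw [this]
      exact hLa _ ih _ hx
  have hPz : ∀ z : ℤ, (z : ℝ) * P ∈ L := by
    intro z
    rcases Int.eq_nat_or_neg z with ⟨n, hn | hn⟩
    · rw [hn]
      exact_mod_cast hLn P hPL n
    · rw [hn]
      have := hLn (-P) hPL' n
      have e : (((-(n : ℤ)) : ℤ) : ℝ) * P = (n : ℝ) * (-P) := by push_cast; ring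
      rw [e]
      exact this
  -- negatives
  have hLneg : ∀ x ∈ L, -x ∈ L := by
    intro x hx
    rw [← hLc.closure_eq, Metric.mem_closure_iff]
    intro ε hε
    obtain ⟨N, hN⟩ := exists_nat_gt (P / ε)
    have hN0 : 0 < N := by
      rcases Nat.eq_zero_or_pos N with h | h
      · rw [h] at hN
        have : 0 < P / ε := div_pos hP0 hε
        simp at hN
        linarith
      · exact h
    obtain ⟨j, k, hk0, -, hjk⟩ := Real.exists_int_int_abs_mul_sub_le (x / P) hN0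
    have h2 : |(k : ℝ) * x - (j : ℝ) * P| ≤ P / (N + 1) := by
      have e : (k : ℝ) * x - (j : ℝ) * P = ((k : ℝ) * (x / P) - (j : ℝ)) * P := by
        field_simp
      rw [e, abs_mul, abs_of_pos hP0]
      calc _ ≤ (1 / ((N : ℝ) + 1)) * P := mul_le_mul_of_nonneg_right hjk hP0.le
        _ = _ := by ring
    have h3 : P / ((N : ℝ) + 1) < ε := by
      rw [div_lt_iff₀ (by positivity)]
      rw [div_lt_iff₀ hε] at hN
      nlinarith
    refine ⟨((k.toNat - 1 : ℕ) : ℝ) * x + ((-j : ℤ) : ℝ) * P, hLa _ (hLn x hx _) _ (hPz _), ?_⟩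
    have h4 : ((k.toNat - 1 : ℕ) : ℝ) = (k : ℝ) - 1 := by
      have h5 : 1 ≤ k.toNat := by omega
      have h6 : (k.toNat : ℤ) = k := Int.toNat_of_nonneg hk0.le
      rw [Nat.cast_sub h5]
      have h7 : ((k.toNat : ℤ) : ℝ) = (k : ℝ) := by rw [h6]
      have h8 : (k.toNat : ℝ) = (k : ℝ) := by exact_mod_cast h7
      rw [h8]
      norm_num
    rw [Real.dist_eq, h4]
    have e : -x - (((k : ℝ) - 1) * x + ((-j : ℤ) : ℝ) * P) = -((k : ℝ) * x - (j : ℝ) * P) := by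
      push_cast
      ring
    rw [e, abs_neg]
    linarith
  let S : AddSubgroup ℝ :=
    { carrier := L
      zero_mem' := hL0
      add_mem' := fun {a b} ha hb => hLa a ha b hb
      neg_mem' := fun {a} ha => hLneg a ha }
  have hdense : Dense (S : Set ℝ) := by
    apply AddSubgroup.dense_of_not_isolated_zero
    intro ε hε
    have hsq : ∀ a : ℝ, a ≠ 0 → a ∈ T → Real.log (a ^ 2) ∈ L := by
      intro a ha haT
      show Real.exp (Real.log (a ^ 2)) ∈ T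
      rw [Real.exp_log (by positivity), sq]
      exact hm _ haT _ haT
    have hℓT : ℓ ∈ T := hc.mem_of_tendsto hlim hr
    have hx : Tendsto (fun n => Real.log (r n ^ 2)) atTop (𝓝 (Real.log (ℓ ^ 2))) :=
      (hlim.pow 2).log (by positivity)
    have e1 : ∀ᶠ n in atTop, |Real.log (r n ^ 2) - Real.log (ℓ ^ 2)| < ε := by
      have := (Metric.tendsto_nhds.1 hx) ε hε
      simpa [Real.dist_eq] using this
    have e2 : ∀ᶠ n in atTop, |r n - ℓ| < |ℓ| := by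
      have := (Metric.tendsto_nhds.1 hlim) |ℓ| (abs_pos.2 hℓ)
      simpa [Real.dist_eq] using this
    have e3 : ∃ᶠ n in atTop, r n ≠ ℓ := by
      rwa [Filter.not_eventually] at hne
    obtain ⟨n, h3, h0, h1', h2⟩ := (e3.and_eventually (hr.and (e1.and e2))).exists
    have hrn : r n ≠ 0 := by
      intro h
      rw [h, zero_sub, abs_neg] at h2
      exact lt_irrefl _ h2
    have hd0 : Real.log (r n ^ 2) - Real.log (ℓ ^ 2) ≠ 0 := by
      intro h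
      have h4 : Real.log (r n ^ 2) = Real.log (ℓ ^ 2) := by linarith
      have h5 : r n ^ 2 = ℓ ^ 2 :=
        Real.log_injOn_pos (show r n ^ 2 ∈ Set.Ioi 0 from (by positivity : 0 < r n ^ 2))
          (show ℓ ^ 2 ∈ Set.Ioi 0 from (by positivity : 0 < ℓ ^ 2)) h4
      rcases sq_eq_sq_iff_eq_or_eq_neg.1 h5 with h6 | h6
      · exact h3 h6
      · rw [h6, show -ℓ - ℓ = -(2 * ℓ) by ring, abs_neg, abs_mul, abs_two] at h2
        have := abs_pos.2 hℓ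
        linarith
    have hd : Real.log (r n ^ 2) - Real.log (ℓ ^ 2) ∈ L := by
      rw [sub_eq_add_neg]
      exact hLa _ (hsq _ hrn h0) _ (hLneg _ (hsq _ hℓ hℓT))
    rcases lt_or_gt_of_ne hd0 with h6 | h6
    · refine ⟨-(Real.log (r n ^ 2) - Real.log (ℓ ^ 2)), hLneg _ hd, by linarith, ?_⟩
      rw [abs_of_neg h6] at h1'
      exact h1'
    · refine ⟨_, hd, h6, ?_⟩
      rwa [abs_of_pos h6] at h1'
  intro t ht
  have h2 : (S : Set ℝ) = univ := by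
    have h3 : closure L = univ := hdense.closure_eq
    rw [← h3, hLc.closure_eq]
    rfl
  have h3 : Real.log t ∈ (S : Set ℝ) := by rw [h2]; trivial
  have h4 : Real.exp (Real.log t) ∈ T := h3
  rwa [Real.exp_log ht] at h4

/-- the sequence of ratios is not eventually constant -/
lemma not_const {a₁ a₂ a₃ b₁ b₂ b₃ q₁ q₂ : ℝ} (h1 : a₁ ≠ 0) (h2 : a₂ ≠ 0) (h3 : b₃ ≠ 0) (hq1 : q₁ ≠ 1)
    (hq2 : q₂ ≠ 0) (hq : q₂ ≠ q₁) : ¬ ∀ᶠ n : ℕ in atTop,
      (b₃ + b₂ * q₁ ^ n + b₁ * (q₁ * q₂) ^ n) / (a₁ + a₂ * q₂ ^ n + a₃ * (q₁ * q₂) ^ n) = b₃ / a₁ := by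
  intro h
  obtain ⟨N, hN⟩ := eventually_atTop.1 h
  have key : ∀ n ≥ N, (a₁ * b₂) * q₁ ^ n + (a₁ * b₁ - b₃ * a₃) * (q₁ * q₂) ^ n - (b₃ * a₂) * q₂ ^ n = 0 := by
    intro n hn
    have h4 := hN n hn
    have hD : a₁ + a₂ * q₂ ^ n + a₃ * (q₁ * q₂) ^ n ≠ 0 := by
      intro h0
      rw [h0, div_zero] at h4
      exact (div_ne_zero h3 h1) h4.symm
    rw [div_eq_div_iff hD h1] at h4
    linear_combination h4
  have k0 := key N le_rfl
  have k1 := key (N + 1) (by omega)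
  have k2 := key (N + 2) (by omega)
  have k3 : b₃ * a₂ * q₂ ^ N * ((q₂ - q₁) * (q₂ - q₁ * q₂)) = 0 := by
    rw [pow_succ, pow_succ, pow_succ] at k1
    rw [pow_add, pow_add, pow_add] at k2
    linear_combination (q₁ + q₁ * q₂) * k1 - k2 - (q₁ * (q₁ * q₂)) * k0
  have k4 : q₂ - q₁ * q₂ ≠ 0 := by
    have : q₂ - q₁ * q₂ = q₂ * (1 - q₁) := by ring
    rw [this]
    exact mul_ne_zero hq2 (sub_ne_zero.2 (Ne.symm hq1))
  exact (mul_ne_zero (mul_ne_zero (mul_ne_zero h3 h2) (pow_ne_zero N hq2))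
    (mul_ne_zero (sub_ne_zero.2 hq) k4)) k3

section
variable {G : Type} [Group G] {ρ : G →* SL3} {g : G} {ν : Fin 3 → ℝ}

lemma pow_diag (hg : (ρ g : M3) = Matrix.diagonal ν) (n : ℕ) :
    (ρ (g ^ n) : M3) = Matrix.diagonal (fun i => ν i ^ n) := by
  rw [map_pow, Matrix.SpecialLinearGroup.coe_pow, hg, Matrix.diagonal_pow]
  rfl

lemma inv_mul_coe (f : G) : (ρ f : M3) * (ρ f⁻¹ : M3) = 1 := by
  rw [← Matrix.SpecialLinearGroup.coe_mul, ← map_mul, mul_inv_cancel, map_one,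
    Matrix.SpecialLinearGroup.coe_one]

lemma inv_pow_diag (hg : (ρ g : M3) = Matrix.diagonal ν) (hν : ∀ i, ν i ≠ 0) (n : ℕ) :
    (ρ (g ^ n)⁻¹ : M3) = Matrix.diagonal (fun i => (ν i)⁻¹ ^ n) := by
  have h1 : Matrix.diagonal (fun i => (ν i)⁻¹ ^ n) * (ρ (g ^ n) : M3) = 1 := by
    rw [pow_diag hg, Matrix.diagonal_mul_diagonal, ← Matrix.diagonal_one]
    congr 1
    funext i
    rw [← mul_pow, inv_mul_cancel₀ (hν i), one_pow]
  exact (left_inv_eq_right_inv h1 (inv_mul_coe (g ^ n))).symm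

lemma ent (hg : (ρ g : M3) = Matrix.diagonal ν) (f f' : G) (n : ℕ) (i j : Fin 3) :
    (ρ (f * g ^ n * f') : M3) i j = (ρ f : M3) i 0 * ν 0 ^ n * (ρ f' : M3) 0 j +
      (ρ f : M3) i 1 * ν 1 ^ n * (ρ f' : M3) 1 j + (ρ f : M3) i 2 * ν 2 ^ n * (ρ f' : M3) 2 j := by
  rw [map_mul, map_mul, Matrix.SpecialLinearGroup.coe_mul, Matrix.SpecialLinearGroup.coe_mul, pow_diag hg,
    Matrix.mul_apply, Fin.sum_univ_three, Matrix.mul_diagonal, Matrix.mul_diagonal, Matrix.mul_diagonal]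

lemma ent_inv (hg : (ρ g : M3) = Matrix.diagonal ν) (hν : ∀ i, ν i ≠ 0) (f f' : G) (n : ℕ) (i j : Fin 3) :
    (ρ (f * g ^ n * f')⁻¹ : M3) i j = (ρ f'⁻¹ : M3) i 0 * (ν 0)⁻¹ ^ n * (ρ f⁻¹ : M3) 0 j +
      (ρ f'⁻¹ : M3) i 1 * (ν 1)⁻¹ ^ n * (ρ f⁻¹ : M3) 1 j +
      (ρ f'⁻¹ : M3) i 2 * (ν 2)⁻¹ ^ n * (ρ f⁻¹ : M3) 2 j := by
  have e : (f * g ^ n * f')⁻¹ = f'⁻¹ * (g ^ n)⁻¹ * f⁻¹ := by group
  rw [e, map_mul, map_mul, Matrix.SpecialLinearGroup.coe_mul, Matrix.SpecialLinearGroup.coe_mul,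
    inv_pow_diag hg hν, Matrix.mul_apply, Fin.sum_univ_three, Matrix.mul_diagonal, Matrix.mul_diagonal,
    Matrix.mul_diagonal]

lemma linRep_e (f : G) (i j : Fin 3) : linRep ρ f (e j) i = (ρ f : M3) i j := by
  show ((ρ f : M3) *ᵥ (Pi.single j 1)) i = _
  rw [Matrix.mulVec_single_one]
  rfl

end

theorem NC (hgen : S_gen) : S_NC := by
  intro G _ ρ g ν hirr hg p2 p12 p11 p10 S hSc hS0 hSu hSν hR
  have hν0 : 0 < ν 0 := by linarith
  have hν1 : 0 < ν 1 := by linarith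
  have hν : ∀ i, ν i ≠ 0 := by
    intro i
    fin_cases i
    · exact hν0.ne'
    · exact hν1.ne'
    · exact p2.ne'
  have hdet : ν 0 * ν 1 * ν 2 = 1 := by
    have h1 : (ρ g : M3).det = 1 := (ρ g).2
    rw [hg, Matrix.det_diagonal, Fin.prod_univ_three] at h1
    exact h1
  -- the three quotients
  have hq1 : 0 < ν 2 / ν 1 := div_pos p2 hν1
  have hq1' : ν 2 / ν 1 < 1 := (div_lt_one hν1).2 p12
  have hq2 : 0 < ν 1 / ν 0 := div_pos hν1 hν0
  have hq2' : ν 1 / ν 0 < 1 := (div_lt_one hν0).2 (by linarith)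
  have hq3 : 0 < ν 2 / ν 0 := div_pos p2 hν0
  have hq3' : ν 2 / ν 0 < 1 := (div_lt_one hν0).2 (by linarith)
  have t1 := tendsto_pow_atTop_nhds_zero_of_lt_one hq1.le hq1'
  have t2 := tendsto_pow_atTop_nhds_zero_of_lt_one hq2.le hq2'
  have t3 := tendsto_pow_atTop_nhds_zero_of_lt_one hq3.le hq3'
  -- numerators and denominators
  have hD : ∀ (f f' : G) (i j : Fin 3) (n : ℕ), (ρ (f * g ^ n * f') : M3) i j = ν 0 ^ n *
      ((ρ f : M3) i 0 * (ρ f' : M3) 0 j + (ρ f : M3) i 1 * (ρ f' : M3) 1 j * (ν 1 / ν 0) ^ n +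
        (ρ f : M3) i 2 * (ρ f' : M3) 2 j * (ν 2 / ν 0) ^ n) := by
    intro f f' i j n
    rw [ent hg, div_pow, div_pow]
    have : ν 0 ^ n ≠ 0 := pow_ne_zero n hν0.ne'
    field_simp
  have hN : ∀ (f f' : G) (i j : Fin 3) (n : ℕ), (ρ (f * g ^ n * f')⁻¹ : M3) i j = (ν 2)⁻¹ ^ n *
      ((ρ f'⁻¹ : M3) i 2 * (ρ f⁻¹ : M3) 2 j + (ρ f'⁻¹ : M3) i 1 * (ρ f⁻¹ : M3) 1 j * (ν 2 / ν 1) ^ n +
        (ρ f'⁻¹ : M3) i 0 * (ρ f⁻¹ : M3) 0 j * (ν 2 / ν 0) ^ n) := by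
    intro f f' i j n
    rw [ent_inv hg hν, div_pow, div_pow, inv_pow, inv_pow, inv_pow]
    have h0 : ν 0 ^ n ≠ 0 := pow_ne_zero n hν0.ne'
    have h1 : ν 1 ^ n ≠ 0 := pow_ne_zero n hν1.ne'
    have h2 : ν 2 ^ n ≠ 0 := pow_ne_zero n p2.ne'
    field_simp
    ring
  have hDlim : ∀ (f f' : G) (i j : Fin 3), Tendsto (fun n : ℕ => (ρ f : M3) i 0 * (ρ f' : M3) 0 j +
      (ρ f : M3) i 1 * (ρ f' : M3) 1 j * (ν 1 / ν 0) ^ n +
        (ρ f : M3) i 2 * (ρ f' : M3) 2 j * (ν 2 / ν 0) ^ n) atTop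
        (𝓝 ((ρ f : M3) i 0 * (ρ f' : M3) 0 j)) := by
    intro f f' i j
    have h := ((tendsto_const_nhds (x := (ρ f : M3) i 0 * (ρ f' : M3) 0 j)).add
      (t2.const_mul ((ρ f : M3) i 1 * (ρ f' : M3) 1 j))).add (t3.const_mul ((ρ f : M3) i 2 * (ρ f' : M3) 2 j))
    simpa using h
  have hNlim : ∀ (f f' : G) (i j : Fin 3), Tendsto (fun n : ℕ => (ρ f'⁻¹ : M3) i 2 * (ρ f⁻¹ : M3) 2 j +
      (ρ f'⁻¹ : M3) i 1 * (ρ f⁻¹ : M3) 1 j * (ν 2 / ν 1) ^ n +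
        (ρ f'⁻¹ : M3) i 0 * (ρ f⁻¹ : M3) 0 j * (ν 2 / ν 0) ^ n) atTop
        (𝓝 ((ρ f'⁻¹ : M3) i 2 * (ρ f⁻¹ : M3) 2 j)) := by
    intro f f' i j
    have h := ((tendsto_const_nhds (x := (ρ f'⁻¹ : M3) i 2 * (ρ f⁻¹ : M3) 2 j)).add
      (t1.const_mul ((ρ f'⁻¹ : M3) i 1 * (ρ f⁻¹ : M3) 1 j))).add
      (t3.const_mul ((ρ f'⁻¹ : M3) i 0 * (ρ f⁻¹ : M3) 0 j))
    simpa using h
  have hratio : ∀ (n : ℕ) (a b : ℝ), ((ν 2)⁻¹ ^ n * a) / (ν 0 ^ n * b) = a / b * ν 1 ^ n := by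
    intro n a b
    have h0 : ν 0 ^ n ≠ 0 := pow_ne_zero n hν0.ne'
    have h2 : ν 2 ^ n ≠ 0 := pow_ne_zero n p2.ne'
    have h3 : (ν 2)⁻¹ ^ n / ν 0 ^ n = ν 1 ^ n := by
      have h4 : ν 1 ^ n * (ν 0 ^ n * ν 2 ^ n) = 1 := by
        rw [← mul_pow, ← mul_pow, show ν 1 * (ν 0 * ν 2) = 1 by linear_combination hdet, one_pow]
      rw [inv_pow, ← one_div, div_div, div_eq_iff (mul_ne_zero h2 h0)]
      linear_combination -h4
    rw [mul_div_mul_comm, h3, mul_comm]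
  -- the closed set `C`
  set C₀ : Set ℝ := {r | ∃ (f : G) (k : ℤ), (ρ f : M3) 0 2 ≠ 0 ∧
    r = -((ρ f⁻¹ : SL3) : M3) 0 2 / (ρ f : M3) 0 2 * ν 1 ^ k} with hC₀
  set C : Set ℝ := closure C₀ with hC
  set T : Set ℝ := {t | ∀ r ∈ C, t * r ∈ C} with hT
  have hTc : IsClosed T := by
    have : T = ⋂ r ∈ C, (fun t : ℝ => t * r) ⁻¹' C := by
      ext t
      simp only [hT, mem_iInter, mem_preimage]
      rfl
    rw [this]
    exact isClosed_biInter fun r _ => isClosed_closure.preimage (continuous_id.mul continuous_const)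
  have hT1 : (1 : ℝ) ∈ T := fun r hr => by rwa [one_mul]
  have hTm : ∀ a ∈ T, ∀ b ∈ T, a * b ∈ T := by
    intro a ha b hb r hr
    rw [mul_assoc]
    exact ha _ (hb r hr)
  -- membership in `T` from `C₀`
  have hTof : ∀ t : ℝ, (∀ r ∈ C₀, t * r ∈ C) → t ∈ T := by
    intro t ht r hr
    have h1 : C ⊆ (fun r : ℝ => t * r) ⁻¹' C :=
      closure_minimal (fun r hr => ht r hr) (isClosed_closure.preimage (continuous_const.mul continuous_id))
    exact h1 hr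
  have hTν : ∀ z : ℤ, ν 1 ^ z ∈ T := by
    intro z
    refine hTof _ ?_
    rintro r ⟨f, k, hf, rfl⟩
    refine subset_closure ⟨f, k + z, hf, ?_⟩
    rw [zpow_add₀ hν1.ne']
    ring
  have hTκ : ∀ f : G, (ρ f : M3) 0 0 ≠ 0 → (ρ f⁻¹ : M3) 2 2 ≠ 0 → (ρ f⁻¹ : M3) 2 2 / (ρ f : M3) 0 0 ∈ T := by
    intro f hf0 hf2
    refine hTof _ ?_
    rintro r ⟨f', k, hf', rfl⟩
    have hlim : Tendsto (fun n : ℕ => -(((ρ f'⁻¹ : M3) 0 2 * (ρ f⁻¹ : M3) 2 2 +
        (ρ f'⁻¹ : M3) 0 1 * (ρ f⁻¹ : M3) 1 2 * (ν 2 / ν 1) ^ n +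
          (ρ f'⁻¹ : M3) 0 0 * (ρ f⁻¹ : M3) 0 2 * (ν 2 / ν 0) ^ n) / ((ρ f : M3) 0 0 * (ρ f' : M3) 0 2 +
        (ρ f : M3) 0 1 * (ρ f' : M3) 1 2 * (ν 1 / ν 0) ^ n +
          (ρ f : M3) 0 2 * (ρ f' : M3) 2 2 * (ν 2 / ν 0) ^ n)) * ν 1 ^ k) atTop
        (𝓝 (-(((ρ f'⁻¹ : M3) 0 2 * (ρ f⁻¹ : M3) 2 2) / ((ρ f : M3) 0 0 * (ρ f' : M3) 0 2)) * ν 1 ^ k)) :=
      (((hNlim f f' 0 2).div (hDlim f f' 0 2) (mul_ne_zero hf0 hf')).neg).mul_const _
    have e : (ρ f⁻¹ : M3) 2 2 / (ρ f : M3) 0 0 * (-(ρ f'⁻¹ : M3) 0 2 / (ρ f' : M3) 0 2 * ν 1 ^ k) =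
        -(((ρ f'⁻¹ : M3) 0 2 * (ρ f⁻¹ : M3) 2 2) / ((ρ f : M3) 0 0 * (ρ f' : M3) 0 2)) * ν 1 ^ k := by
      field_simp
    rw [e]
    refine mem_closure_of_tendsto hlim ?_
    have hev : ∀ᶠ n : ℕ in atTop, (ρ f : M3) 0 0 * (ρ f' : M3) 0 2 +
        (ρ f : M3) 0 1 * (ρ f' : M3) 1 2 * (ν 1 / ν 0) ^ n +
          (ρ f : M3) 0 2 * (ρ f' : M3) 2 2 * (ν 2 / ν 0) ^ n ≠ 0 :=
      (hDlim f f' 0 2).eventually_ne (mul_ne_zero hf0 hf')
    filter_upwards [hev] with n hn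
    refine ⟨f * g ^ n * f', k - n, ?_, ?_⟩
    · rw [hD]
      exact mul_ne_zero (pow_ne_zero n hν0.ne') hn
    · rw [hD, hN, neg_div, hratio, zpow_sub₀ hν1.ne', zpow_natCast]
      have h5 : ν 1 ^ n ≠ 0 := pow_ne_zero n hν1.ne'
      field_simp
  -- the generic elements
  have hgen1 : ∃ f : G, (ρ f : M3) 0 0 ≠ 0 ∧ (ρ f : M3) 0 1 ≠ 0 ∧ (ρ f⁻¹ : M3) 2 2 ≠ 0 := by
    obtain ⟨f, hf1, hf2⟩ := hgen G E (linRep ρ) hirr (Fin 2) (Fin 1)
      (fun _ => LinearMap.proj 0) ![e 0, e 1] (fun _ => LinearMap.proj 2) (fun _ => e 2)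
      (fun _ h => by
        have := congrArg (fun l : E →ₗ[ℝ] ℝ => l (e 0)) h
        simp [e] at this)
      (fun i h => by
        fin_cases i
        · have := congrFun h 0
          simp [e] at this
        · have := congrFun h 1
          simp [e] at this)
      (fun _ h => by
        have := congrArg (fun l : E →ₗ[ℝ] ℝ => l (e 2)) h
        simp [e] at this)
      (fun i h => by
        have := congrFun h 2
        simp [e] at this)
    refine ⟨f, ?_, ?_, ?_⟩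
    · have := hf1 0
      rwa [show (LinearMap.proj 0 : E →ₗ[ℝ] ℝ) (linRep ρ f ((![e 0, e 1] : Fin 2 → E) 0)) =
        linRep ρ f (e 0) 0 from rfl, linRep_e] at this
    · have := hf1 1
      rwa [show (LinearMap.proj 0 : E →ₗ[ℝ] ℝ) (linRep ρ f ((![e 0, e 1] : Fin 2 → E) 1)) =
        linRep ρ f (e 1) 0 from rfl, linRep_e] at this
    · have := hf2 0
      rwa [show (LinearMap.proj 2 : E →ₗ[ℝ] ℝ) (linRep ρ f⁻¹ (e 2)) =
        linRep ρ f⁻¹ (e 2) 2 from rfl, linRep_e] at this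
  have hgen2 : ∃ f : G, (ρ f : M3) 0 0 ≠ 0 ∧ (ρ f : M3) 1 0 ≠ 0 ∧ (ρ f⁻¹ : M3) 2 2 ≠ 0 := by
    obtain ⟨f, hf1, hf2⟩ := hgen G E (linRep ρ) hirr (Fin 2) (Fin 1)
      ![LinearMap.proj 0, LinearMap.proj 1] (fun _ => e 0) (fun _ => LinearMap.proj 2) (fun _ => e 2)
      (fun i h => by
        fin_cases i
        · have := congrArg (fun l : E →ₗ[ℝ] ℝ => l (e 0)) h
          simp [e] at this
        · have := congrArg (fun l : E →ₗ[ℝ] ℝ => l (e 1)) h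
          simp [e] at this)
      (fun i h => by
        have := congrFun h 0
        simp [e] at this)
      (fun _ h => by
        have := congrArg (fun l : E →ₗ[ℝ] ℝ => l (e 2)) h
        simp [e] at this)
      (fun i h => by
        have := congrFun h 2
        simp [e] at this)
    refine ⟨f, ?_, ?_, ?_⟩
    · have := hf1 0
      rwa [show ((![LinearMap.proj 0, LinearMap.proj 1] : Fin 2 → (E →ₗ[ℝ] ℝ)) 0) (linRep ρ f (e 0)) =
        linRep ρ f (e 0) 0 from rfl, linRep_e] at this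
    · have := hf1 1
      rwa [show ((![LinearMap.proj 0, LinearMap.proj 1] : Fin 2 → (E →ₗ[ℝ] ℝ)) 1) (linRep ρ f (e 0)) =
        linRep ρ f (e 0) 1 from rfl, linRep_e] at this
    · have := hf2 0
      rwa [show (LinearMap.proj 2 : E →ₗ[ℝ] ℝ) (linRep ρ f⁻¹ (e 2)) =
        linRep ρ f⁻¹ (e 2) 2 from rfl, linRep_e] at this
  obtain ⟨f₁, u1, u2, u3⟩ := hgen1
  obtain ⟨f₂, w1, w2, w3⟩ := hgen2
  -- all positive numbers are in `T`
  have hpos : ∀ t : ℝ, 0 < t → t ∈ T := by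
    have hDl := hDlim f₁ f₂ 0 0
    have hNl := hNlim f₁ f₂ 2 2
    have hD0 : (ρ f₁ : M3) 0 0 * (ρ f₂ : M3) 0 0 ≠ 0 := mul_ne_zero u1 w1
    have hN0 : (ρ f₂⁻¹ : M3) 2 2 * (ρ f₁⁻¹ : M3) 2 2 ≠ 0 := mul_ne_zero w3 u3
    have hp1 : ν 1 ∈ T := by
      have := hTν 1
      rwa [zpow_one] at this
    have hp2 : (ν 1)⁻¹ ∈ T := by
      have := hTν (-1)
      rwa [_root_.zpow_neg_one] at this
    refine all_pos hTc hT1 hTm hν1 p11 hp1 hp2 ?_ (div_ne_zero hN0 hD0) (hNl.div hDl hD0) ?_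
    · filter_upwards [hDl.eventually_ne hD0, hNl.eventually_ne hN0] with n h1 h2
      have h3 := hTκ (f₁ * g ^ n * f₂) (by rw [hD]; exact mul_ne_zero (pow_ne_zero n hν0.ne') h1)
        (by rw [hN]; exact mul_ne_zero (pow_ne_zero n (inv_ne_zero p2.ne')) h2)
      rw [hD, hN, hratio] at h3
      have h4 := hTm _ h3 _ (hTν (-(n : ℤ)))
      rw [_root_.zpow_neg, zpow_natCast, mul_assoc, mul_inv_cancel₀ (pow_ne_zero n hν1.ne'), mul_one] at h4
      exact h4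
    · have hne : ν 1 / ν 0 ≠ ν 2 / ν 1 := by
        intro h
        rw [div_eq_div_iff hν0.ne' hν1.ne'] at h
        have h5 : ν 1 ^ 3 = 1 := by
          calc ν 1 ^ 3 = ν 1 * (ν 1 * ν 1) := by ring
            _ = ν 1 * (ν 2 * ν 0) := by rw [h]
            _ = 1 := by linear_combination hdet
        have h6 : ν 1 ^ 3 < 1 := pow_lt_one₀ hν1.le p11 (by norm_num)
        linarith
      have h7 := not_const (a₁ := (ρ f₁ : M3) 0 0 * (ρ f₂ : M3) 0 0) (a₂ := (ρ f₁ : M3) 0 1 * (ρ f₂ : M3) 1 0)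
        (a₃ := (ρ f₁ : M3) 0 2 * (ρ f₂ : M3) 2 0) (b₁ := (ρ f₂⁻¹ : M3) 2 0 * (ρ f₁⁻¹ : M3) 0 2)
        (b₂ := (ρ f₂⁻¹ : M3) 2 1 * (ρ f₁⁻¹ : M3) 1 2) (b₃ := (ρ f₂⁻¹ : M3) 2 2 * (ρ f₁⁻¹ : M3) 2 2)
        (q₁ := ν 2 / ν 1) (q₂ := ν 1 / ν 0) hD0 (mul_ne_zero u2 w2) hN0 hq1'.ne hq2.ne' hne
      have h8 : ν 2 / ν 1 * (ν 1 / ν 0) = ν 2 / ν 0 := by
        field_simp
      rw [h8] at h7
      exact h7
  -- the conclusion
  have hSz : ∀ (k : ℤ) (s : ℝ), s ∈ S → ν 1 ^ k * s ∈ S := by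
    have hn : ∀ (n : ℕ) (s : ℝ), ν 1 ^ n * s ∈ S ↔ s ∈ S := by
      intro n
      induction n with
      | zero => intro s; simp
      | succ n ih =>
        intro s
        rw [pow_succ, mul_assoc, ih, hSν]
    intro k s hs
    rcases Int.eq_nat_or_neg k with ⟨n, rfl | rfl⟩
    · rw [zpow_natCast]
      exact (hn n s).2 hs
    · rw [_root_.zpow_neg, zpow_natCast]
      rw [← hn n, ← mul_assoc, mul_inv_cancel₀ (pow_ne_zero n hν1.ne'), one_mul]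
      exact hs
  have hE : ∀ r ∈ C, ∀ s, s ∈ S ∨ r * s ∈ S := by
    have h1 : C ⊆ {r : ℝ | ∀ s, s ∈ S ∨ r * s ∈ S} := by
      refine closure_minimal ?_ ?_
      · rintro r ⟨f, k, hf, rfl⟩ s
        rcases hR f hf s with h | h
        · exact Or.inl h
        · right
          have := hSz k _ h
          rw [← mul_assoc, mul_comm (ν 1 ^ k)] at this
          exact this
      · have : {r : ℝ | ∀ s, s ∈ S ∨ r * s ∈ S} = ⋂ s : ℝ, {r : ℝ | s ∈ S ∨ r * s ∈ S} := by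
          ext r
          simp only [mem_iInter]
          rfl
        rw [this]
        refine isClosed_iInter fun s => ?_
        by_cases hs : s ∈ S
        · have : {r : ℝ | s ∈ S ∨ r * s ∈ S} = univ := by
            ext r
            simp [hs]
          rw [this]
          exact isClosed_univ
        · have : {r : ℝ | s ∈ S ∨ r * s ∈ S} = (fun r : ℝ => r * s) ⁻¹' S := by
            ext r
            simp [hs]
          rw [this]
          exact hSc.preimage (continuous_id.mul continuous_const)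
    exact fun r hr => h1 hr
  intro f
  by_contra hcon
  rw [not_le] at hcon
  have hf : (ρ f : M3) 0 2 ≠ 0 := by
    intro h
    rw [h, zero_mul] at hcon
    exact lt_irrefl _ hcon
  set κ : ℝ := -((ρ f⁻¹ : SL3) : M3) 0 2 / (ρ f : M3) 0 2 with hκ
  have hκ0 : 0 < κ := by
    have h1 : κ = -((ρ f : M3) 0 2 * ((ρ f⁻¹ : SL3) : M3) 0 2) / ((ρ f : M3) 0 2) ^ 2 := by
      rw [hκ]
      field_simp
    rw [h1]
    exact div_pos (by linarith) (by positivity)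
  have hκC : κ ∈ C := by
    refine subset_closure ⟨f, 0, hf, ?_⟩
    rw [zpow_zero, mul_one]
  have h1C : (1 : ℝ) ∈ C := by
    have := hpos κ⁻¹ (inv_pos.2 hκ0) κ hκC
    rwa [inv_mul_cancel₀ hκ0.ne'] at this
  apply hSu
  rw [eq_univ_iff_forall]
  intro s
  rcases hE 1 h1C s with h | h
  · exact h
  · rwa [one_mul] at h

end Pool.Agent.Helper58.K3.nc
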