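import Pool.Agent.Helper77.K3.DefsI

/-!
# Kleinian affine structures in dimension three: the real-variable statement
-/

set_option autoImplicit false

open Set Filter Topology

namespace Pool.Agent.Helper58.K3.real

open Pool.Agent.Helper77.K3

/-- The hypotheses which are invariant under the reflections. -/
structure Sys (I : Set ℝ) (Y : ℝ → ℝ) (M : ℝ → ℝ → Prop) : Prop where
  oc : I.OrdConnected
  cont : ContinuousOn Y I
  mem : ∀ x m, M x m → x ∈ I
  ex : ∀ x ∈ I, ∃ m, M x m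
  nc : ∀ x m x' m', M x m → M x' m' → x < x' →
      0 ≤ ((Y x' - Y x) / (x' - x) - m) * (m' - (Y x' - Y x) / (x' - x))
  fin : ∀ x m, M x m → {x' ∈ I | Y x' = Y x + m * (x' - x)}.Finite

variable {I : Set ℝ} {Y : ℝ → ℝ} {M : ℝ → ℝ → Prop}

lemma Sys.neg (h : Sys I Y M) : Sys I (fun x => -Y x) (fun x m => M x (-m)) where
  oc := h.oc
  cont := h.cont.neg
  mem x m hm := h.mem x _ hm
  ex x hx := by
    obtain ⟨m, hm⟩ := h.ex x hx
    exact ⟨-m, by rwa [neg_neg]⟩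
  nc x m x' m' hm hm' hlt := by
    have h1 := h.nc x (-m) x' (-m') hm hm' hlt
    have e : (-Y x' - -Y x) / (x' - x) = -((Y x' - Y x) / (x' - x)) := by ring
    rw [e]
    nlinarith [h1]
  fin x m hm := by
    refine (h.fin x (-m) hm).subset ?_
    rintro x' ⟨h1, h2⟩
    refine ⟨h1, ?_⟩
    linarith

lemma Sys.refl (h : Sys I Y M) : Sys ((fun x => -x) ⁻¹' I) (fun x => Y (-x)) (fun x m => M (-x) (-m)) where
  oc := by
    constructor
    intro x hx y hy z hz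
    exact h.oc.out hy hx ⟨neg_le_neg hz.2, neg_le_neg hz.1⟩
  cont := h.cont.comp continuous_neg.continuousOn fun x hx => hx
  mem x m hm := h.mem _ _ hm
  ex x hx := by
    obtain ⟨m, hm⟩ := h.ex (-x) hx
    exact ⟨-m, by rwa [neg_neg]⟩
  nc x m x' m' hm hm' hlt := by
    have h1 := h.nc (-x') (-m') (-x) (-m) hm' hm (neg_lt_neg hlt)
    have e : (Y (-x) - Y (-x')) / (-x - -x') = -((Y (-x') - Y (-x)) / (x' - x)) := by
      rw [show -x - -x' = x' - x by ring, ← neg_div]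
      congr 1
      ring
    rw [e] at h1
    nlinarith [h1]
  fin x m hm := by
    have h1 := (h.fin (-x) (-m) hm).preimage (neg_injective.injOn (s := (fun x : ℝ => -x) ⁻¹' _))
    refine h1.subset ?_
    rintro x' ⟨h2, h3⟩
    refine ⟨h2, ?_⟩
    show Y (-x') = Y (-x) + -m * (-x' - -x)
    have h4 : Y (-x') = Y (-x) + m * (x' - x) := h3
    rw [h4]
    ring

/-- the key: if `x₀ < x₁ < x₂` and the slope excess is positive at `x₂` it is not smaller than at `x₁` -/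
lemma Sys.mono (h : Sys I Y M) {x₀ m₀ x₁ x₂ : ℝ} (h0 : M x₀ m₀) (h1 : x₁ ∈ I) (h2 : x₂ ∈ I) (h01 : x₀ < x₁)
    (h12 : x₁ < x₂) (hpos : 0 < (Y x₂ - Y x₀) / (x₂ - x₀) - m₀) :
    (Y x₁ - Y x₀) / (x₁ - x₀) ≤ (Y x₂ - Y x₀) / (x₂ - x₀) := by
  by_contra hcon
  rw [not_le] at hcon
  obtain ⟨m₁, hm1⟩ := h.ex x₁ h1
  obtain ⟨m₂, hm2⟩ := h.ex x₂ h2
  have n1 := h.nc _ _ _ _ h0 hm1 h01
  have n2 := h.nc _ _ _ _ h0 hm2 (h01.trans h12)
  have n3 := h.nc _ _ _ _ hm1 hm2 h12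
  set s₁ := (Y x₁ - Y x₀) / (x₁ - x₀) with hs1
  set s₂ := (Y x₂ - Y x₀) / (x₂ - x₀) with hs2
  set s₃ := (Y x₂ - Y x₁) / (x₂ - x₁) with hs3
  have d1 : 0 < x₁ - x₀ := sub_pos.2 h01
  have d2 : 0 < x₂ - x₀ := sub_pos.2 (h01.trans h12)
  have d3 : 0 < x₂ - x₁ := sub_pos.2 h12
  have e1 : Y x₁ - Y x₀ = s₁ * (x₁ - x₀) := by rw [hs1, div_mul_cancel₀ _ d1.ne']
  have e2 : Y x₂ - Y x₀ = s₂ * (x₂ - x₀) := by rw [hs2, div_mul_cancel₀ _ d2.ne']
  have e3 : Y x₂ - Y x₁ = s₃ * (x₂ - x₁) := by rw [hs3, div_mul_cancel₀ _ d3.ne']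
  -- the slopes
  have k1 : s₁ ≤ m₁ := by
    by_contra hc
    rw [not_le] at hc
    have : (s₁ - m₀) * (m₁ - s₁) < 0 := mul_neg_of_pos_of_neg (by linarith) (by linarith)
    linarith
  have k2 : s₂ ≤ m₂ := by
    by_contra hc
    rw [not_le] at hc
    have : (s₂ - m₀) * (m₂ - s₂) < 0 := mul_neg_of_pos_of_neg (by linarith) (by linarith)
    linarith
  have k3 : s₃ < s₂ := by
    have h5 : s₃ * (x₂ - x₁) = s₂ * (x₂ - x₁) - (s₁ - s₂) * (x₁ - x₀) := by
      rw [← e3]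
      linear_combination e2 - e1
    have h6 : 0 < (s₁ - s₂) * (x₁ - x₀) := mul_pos (by linarith) d1
    have h7 : s₃ * (x₂ - x₁) < s₂ * (x₂ - x₁) := by linarith
    exact lt_of_mul_lt_mul_right h7 d3.le
  have : (s₃ - m₁) * (m₂ - s₃) < 0 := mul_neg_of_neg_of_pos (by linarith) (by linarith)
  linarith

/-- a zero on the right forces the excess to be nonpositive before -/
lemma Sys.nonpos (h : Sys I Y M) {x₀ m₀ x₁ x₂ : ℝ} (h0 : M x₀ m₀) (h2 : x₂ ∈ I) (h01 : x₀ < x₁)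
    (h12 : x₁ < x₂) (hz : Y x₂ = Y x₀ + m₀ * (x₂ - x₀)) : Y x₁ ≤ Y x₀ + m₀ * (x₁ - x₀) := by
  by_contra hcon
  rw [not_le] at hcon
  have hI : Icc x₀ x₂ ⊆ I := h.oc.out (h.mem _ _ h0) h2
  -- the excess
  let q : ℝ → ℝ := fun x => (Y x - Y x₀) / (x - x₀) - m₀
  have hq : ContinuousOn q (Icc x₁ x₂) := by
    refine ContinuousOn.sub (ContinuousOn.div ?_ ?_ ?_) continuousOn_const
    · exact (h.cont.mono ((Icc_subset_Icc_left h01.le).trans hI)).sub continuousOn_const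
    · exact continuousOn_id.sub continuousOn_const
    · intro x hx
      exact (sub_pos.2 (h01.trans_le hx.1)).ne'
  have d1 : 0 < x₁ - x₀ := sub_pos.2 h01
  have d2 : 0 < x₂ - x₀ := sub_pos.2 (h01.trans h12)
  have q1 : 0 < q x₁ := by
    have : m₀ < (Y x₁ - Y x₀) / (x₁ - x₀) := by
      rw [lt_div_iff₀ d1]
      linarith
    exact sub_pos.2 this
  have q2 : q x₂ = 0 := by
    have : (Y x₂ - Y x₀) / (x₂ - x₀) = m₀ := by
      rw [div_eq_iff d2.ne', hz]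
      ring
    exact sub_eq_zero.2 this
  -- intermediate value
  have h3 := intermediate_value_Icc' h12.le hq
  obtain ⟨x, hx, hxq⟩ := h3 (show q x₁ / 2 ∈ Icc (q x₂) (q x₁) from ⟨by rw [q2]; linarith, by linarith⟩)
  have hx1 : x₁ < x := by
    refine lt_of_le_of_ne hx.1 fun he => ?_
    rw [← he] at hxq
    linarith
  have hxq' : (Y x - Y x₀) / (x - x₀) - m₀ = q x₁ / 2 := hxq
  have h4 := h.mono h0 (hI ⟨h01.le, h12.le⟩) (hI ⟨(h01.trans hx1).le, hx.2⟩) h01 hx1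
    (by rw [hxq']; linarith)
  have h5 : q x₁ = (Y x₁ - Y x₀) / (x₁ - x₀) - m₀ := rfl
  linarith

lemma Sys.strictR (h : Sys I Y M) {x₀ m₀ x₂ : ℝ} (h0 : M x₀ m₀) (h2 : x₂ ∈ I) (h02 : x₀ < x₂) :
    Y x₂ ≠ Y x₀ + m₀ * (x₂ - x₀) := by
  intro hz
  have hI : Icc x₀ x₂ ⊆ I := h.oc.out (h.mem _ _ h0) h2
  have h1 : Ioo x₀ x₂ ⊆ {x' ∈ I | Y x' = Y x₀ + m₀ * (x' - x₀)} := by
    intro x hx
    refine ⟨hI ⟨hx.1.le, hx.2.le⟩, le_antisymm (h.nonpos h0 h2 hx.1 hx.2 hz) ?_⟩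
    have h3 := h.neg.nonpos (x₀ := x₀) (m₀ := -m₀) (x₁ := x) (x₂ := x₂) (by rwa [neg_neg]) h2 hx.1 hx.2
      (by show -Y x₂ = -Y x₀ + -m₀ * (x₂ - x₀); linarith)
    have h4 : -Y x ≤ -Y x₀ + -m₀ * (x - x₀) := h3
    linarith
  exact (Ioo_infinite h02) ((h.fin _ _ h0).subset h1)

lemma Sys.strict (h : Sys I Y M) {x₀ m₀ x₂ : ℝ} (h0 : M x₀ m₀) (h2 : x₂ ∈ I) (h02 : x₂ ≠ x₀) :
    Y x₂ ≠ Y x₀ + m₀ * (x₂ - x₀) := by
  rcases lt_or_gt_of_ne h02 with h3 | h3
  · intro hz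
    refine h.refl.strictR (x₀ := -x₀) (m₀ := -m₀) (x₂ := -x₂) ?_ ?_ (neg_lt_neg h3) ?_
    · show M (- -x₀) (- -m₀)
      rwa [neg_neg, neg_neg]
    · show - -x₂ ∈ I
      rwa [neg_neg]
    · show Y (- -x₂) = Y (- -x₀) + -m₀ * (-x₂ - -x₀)
      rw [neg_neg, neg_neg, hz]
      ring
  · exact h.strictR h0 h2 h3

/-- the mixed case is impossible -/
lemma Sys.mixed (h : Sys I Y M) (h0 : 0 ∈ I) (hY : Y 0 = 0) (hM : ∀ m, M 0 m → m = 0)
    (hsm : ∀ ε > 0, ∃ δ > 0, ∀ x m, |x| < δ → M x m → |m| < ε)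
    (hp : ∀ x ∈ I, 0 < x → 0 < Y x) (hn : ∀ x ∈ I, x < 0 → Y x < 0) {a b : ℝ} (ha : a ∈ I) (hb : b ∈ I)
    (ha0 : a < 0) (hb0 : 0 < b) : False := by
  obtain ⟨m0, hm0⟩ := h.ex 0 h0
  have hm0' : m0 = 0 := hM _ hm0
  subst hm0'
  -- slopes dominate
  have k1 : ∀ x m, M x m → x ≠ 0 → Y x / x ≤ m := by
    intro x m hm hx
    have hxI := h.mem _ _ hm
    rcases lt_or_gt_of_ne hx with hx0 | hx0
    · have h1 := h.nc _ _ _ _ hm hm0 hx0
      have e : (Y 0 - Y x) / (0 - x) = Y x / x := by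
        rw [hY, zero_sub, zero_sub, neg_div_neg_eq]
      rw [e] at h1
      have h2 : 0 < Y x / x := div_pos_of_neg_of_neg (hn x hxI hx0) hx0
      by_contra hc
      rw [not_le] at hc
      have : (Y x / x - m) * (0 - Y x / x) < 0 := mul_neg_of_pos_of_neg (by linarith) (by linarith)
      linarith
    · have h1 := h.nc _ _ _ _ hm0 hm hx0
      have e : (Y x - Y 0) / (x - 0) = Y x / x := by rw [hY, sub_zero, sub_zero]
      rw [e] at h1
      have h2 : 0 < Y x / x := div_pos (hp x hxI hx0) hx0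
      by_contra hc
      rw [not_le] at hc
      have : (Y x / x - 0) * (m - Y x / x) < 0 := mul_neg_of_pos_of_neg (by linarith) (by linarith)
      linarith
  have hIab : Icc a b ⊆ I := h.oc.out ha hb
  have sa : 0 < Y a / a := div_pos_of_neg_of_neg (hn a ha ha0) ha0
  have sb : 0 < Y b / b := div_pos (hp b hb hb0) hb0
  set σ := min (Y a / a) (Y b / b) with hσ
  have hσ0 : 0 < σ := lt_min sa sb
  obtain ⟨δ, hδ, hδ'⟩ := hsm σ hσ0
  -- small points
  have k2 : ∀ x ∈ I, x ≠ 0 → |x| < δ → Y x / x < σ := by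
    intro x hx hx0 hxd
    obtain ⟨m, hm⟩ := h.ex x hx
    exact lt_of_le_of_lt (k1 x m hm hx0) (lt_of_le_of_lt (le_abs_self m) (hδ' x m hxd hm))
  -- the point on the right
  have hbσ : ∃ x ∈ I, 0 < x ∧ Y x / x = σ := by
    set c := min (δ / 2) b with hc
    have hc0 : 0 < c := lt_min (by linarith) hb0
    have hcb : c ≤ b := min_le_right _ _
    have hcI : Icc c b ⊆ I := (Icc_subset_Icc_left (by linarith)).trans hIab
    have hcc : ContinuousOn (fun x => Y x / x) (Icc c b) :=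
      (h.cont.mono hcI).div continuousOn_id fun x hx => (hc0.trans_le hx.1).ne'
    have h1 := intermediate_value_Icc hcb hcc
    have h2 : Y c / c < σ := by
      refine k2 c (hcI ⟨le_rfl, hcb⟩) hc0.ne' ?_
      rw [abs_of_pos hc0]
      exact lt_of_le_of_lt (min_le_left _ _) (by linarith)
    obtain ⟨x, hx, hxs⟩ := h1 (show σ ∈ Icc (Y c / c) (Y b / b) from ⟨h2.le, min_le_right _ _⟩)
    exact ⟨x, hcI hx, hc0.trans_le hx.1, hxs⟩
  -- the point on the left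
  have haσ : ∃ x ∈ I, x < 0 ∧ Y x / x = σ := by
    set c := max (-(δ / 2)) a with hc
    have hc0 : c < 0 := max_lt (by linarith) ha0
    have hca : a ≤ c := le_max_right _ _
    have hcI : Icc a c ⊆ I := (Icc_subset_Icc_right (by linarith)).trans hIab
    have hcc : ContinuousOn (fun x => Y x / x) (Icc a c) :=
      (h.cont.mono hcI).div continuousOn_id fun x hx => (hx.2.trans_lt hc0).ne
    have h1 := intermediate_value_Icc' hca hcc
    have h2 : Y c / c < σ := by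
      refine k2 c (hcI ⟨hca, le_rfl⟩) hc0.ne ?_
      rw [abs_of_neg hc0]
      have h3 : -(δ / 2) ≤ c := le_max_left _ _
      linarith
    obtain ⟨x, hx, hxs⟩ := h1 (show σ ∈ Icc (Y c / c) (Y a / a) from ⟨h2.le, min_le_left _ _⟩)
    exact ⟨x, hcI hx, hx.2.trans_lt hc0, hxs⟩
  obtain ⟨x, hx, hx0, hxs⟩ := haσ
  obtain ⟨y, hy, hy0, hys⟩ := hbσ
  have ex : Y x = σ * x := by rw [← hxs, div_mul_cancel₀ _ hx0.ne]
  have ey : Y y = σ * y := by rw [← hys, div_mul_cancel₀ _ hy0.ne']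
  obtain ⟨mx, hmx⟩ := h.ex x hx
  obtain ⟨my, hmy⟩ := h.ex y hy
  have h1 := h.nc _ _ _ _ hmx hmy (hx0.trans hy0)
  have e : (Y y - Y x) / (y - x) = σ := by
    rw [ex, ey, ← mul_sub, mul_div_cancel_right₀ _ (sub_pos.2 (hx0.trans hy0)).ne']
  rw [e] at h1
  have h2 := k1 x mx hmx hx0.ne
  have h3 := k1 y my hmy hy0.ne'
  rw [hxs] at h2
  rw [hys] at h3
  have h4 : mx = σ ∨ my = σ := by
    by_contra hc
    rw [not_or] at hc
    have h5 : σ < mx := lt_of_le_of_ne h2 (Ne.symm hc.1)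
    have h6 : σ < my := lt_of_le_of_ne h3 (Ne.symm hc.2)
    have : (σ - mx) * (my - σ) < 0 := mul_neg_of_neg_of_pos (by linarith) (by linarith)
    linarith
  rcases h4 with h4 | h4
  · refine h.strict hmx h0 hx0.ne' ?_
    rw [hY, ex, h4]
    ring
  · refine h.strict hmy h0 hy0.ne ?_
    rw [hY, ey, h4]
    ring

/-- constant sign on one side -/
lemma sign_of {J : Set ℝ} (hJ : J.OrdConnected) (hc : ContinuousOn Y J) (hne : ∀ x ∈ J, Y x ≠ 0) :
    (∀ x ∈ J, 0 < Y x) ∨ ∀ x ∈ J, Y x < 0 := by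
  by_contra hcon
  rw [not_or] at hcon
  obtain ⟨h1, h2⟩ := hcon
  push Not at h1 h2
  obtain ⟨x, hx, hx0⟩ := h1
  obtain ⟨y, hy, hy0⟩ := h2
  have hpc : IsPreconnected J := hJ.isPreconnected
  obtain ⟨z, hz, hz0⟩ := hpc.intermediate_value hx hy hc ⟨hx0, hy0⟩
  exact hne z hz hz0

theorem real : S_real := by
  intro I Y M hoc h0 hcont hmem hex hnc hfin hY hne hM hsm
  have h : Sys I Y M := ⟨hoc, hcont, hmem, hex, hnc, hfin⟩
  have hp := sign_of (Y := Y) (J := I ∩ Ioi 0) (hoc.inter ordConnected_Ioi)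
    (hcont.mono inter_subset_left) fun x hx => hne x hx.1 (ne_of_gt hx.2)
  have hn := sign_of (Y := Y) (J := I ∩ Iio 0) (hoc.inter ordConnected_Iio)
    (hcont.mono inter_subset_left) fun x hx => hne x hx.1 (ne_of_lt hx.2)
  -- if one side is empty or the signs agree
  have key : ∀ (Q : ℝ → Prop), Q 0 → (∀ x ∈ I ∩ Ioi 0, Q (Y x)) → (∀ x ∈ I ∩ Iio 0, Q (Y x)) →
      ∀ x ∈ I, Q (Y x) := by
    intro Q hQ h1 h2 x hx
    rcases lt_trichotomy x 0 with h3 | h3 | h3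
    · exact h2 x ⟨hx, h3⟩
    · rw [h3, hY]
      exact hQ
    · exact h1 x ⟨hx, h3⟩
  by_cases hR : (I ∩ Ioi (0 : ℝ)).Nonempty
  · by_cases hL : (I ∩ Iio (0 : ℝ)).Nonempty
    · obtain ⟨b, hb, hb0⟩ := hR
      obtain ⟨a, ha, ha0⟩ := hL
      rcases hp with hp | hp
      · rcases hn with hn | hn
        · left
          exact key (fun y => 0 ≤ y) le_rfl (fun x hx => (hp x hx).le) fun x hx => (hn x hx).le
        · exact (h.mixed h0 hY hM hsm (fun x hx hx0 => hp x ⟨hx, hx0⟩) (fun x hx hx0 => hn x ⟨hx, hx0⟩)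
            ha hb ha0 hb0).elim
      · rcases hn with hn | hn
        · refine (h.neg.mixed h0 (by simp [hY]) (fun m hm => ?_) (fun ε hε => ?_)
            (fun x hx hx0 => ?_) (fun x hx hx0 => ?_) ha hb ha0 hb0).elim
          · have := hM _ hm
            linarith
          · obtain ⟨δ, hδ, h3⟩ := hsm ε hε
            refine ⟨δ, hδ, fun x m hx hm => ?_⟩
            have := h3 x _ hx hm
            rwa [abs_neg] at this
          · exact neg_pos.2 (hp x ⟨hx, hx0⟩)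
          · exact neg_lt_zero.2 (hn x ⟨hx, hx0⟩)
        · right
          exact key (fun y => y ≤ 0) le_rfl (fun x hx => (hp x hx).le) fun x hx => (hn x hx).le
    · rw [not_nonempty_iff_eq_empty] at hL
      rcases hp with hp | hp
      · left
        exact key (fun y => 0 ≤ y) le_rfl (fun x hx => (hp x hx).le) fun x hx => by rw [hL] at hx; exact hx.elim
      · right
        exact key (fun y => y ≤ 0) le_rfl (fun x hx => (hp x hx).le) fun x hx => by rw [hL] at hx; exact hx.elim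
  · rw [not_nonempty_iff_eq_empty] at hR
    rcases hn with hn | hn
    · left
      exact key (fun y => 0 ≤ y) le_rfl (fun x hx => by rw [hR] at hx; exact hx.elim) fun x hx => (hn x hx).le
    · right
      exact key (fun y => y ≤ 0) le_rfl (fun x hx => by rw [hR] at hx; exact hx.elim) fun x hx => (hn x hx).le

end Pool.Agent.Helper58.K3.real
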